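import Mathlib

/-!
# MP_acd137_lc / TB / Lac: lacunary series (helper90)
-/

set_option autoImplicit false

namespace MPacdTB

open Filter Topology

/-- the data of a lacunary series `∑ e i / b ^ m i` -/
structure Lac (b : ℕ) (e : ℕ → ℤ) (m : ℕ → ℕ) (D : ℕ) (lam : ℝ) : Prop where
  hb : 2 ≤ b
  mono : StrictMono m
  hlam : 1 < lam
  lac : ∀ᶠ i in atTop, lam * m i ≤ m (i + 1)
  ne : ∀ i, e i ≠ 0
  le : ∀ i, |e i| ≤ D

/-- the value of the series -/
noncomputable def theta (b : ℕ) (e : ℕ → ℤ) (m : ℕ → ℕ) : ℝ :=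
  ∑' i, (e i : ℝ) / (b : ℝ) ^ (m i)

/-- the numerators of the partial sums -/
def Pn (b : ℕ) (e : ℕ → ℤ) (m : ℕ → ℕ) (k : ℕ) : ℤ :=
  ∑ r ∈ Finset.range (k + 1), e r * (b : ℤ) ^ (m k - m r)

variable {b : ℕ} {e : ℕ → ℤ} {m : ℕ → ℕ} {D : ℕ} {lam : ℝ}

theorem m_add (hm : StrictMono m) (k r : ℕ) : m k + r ≤ m (k + r) := by
  induction r with
  | zero => simp
  | succ r ih =>
    have := hm (Nat.lt_succ_self (k + r))
    have h2 : m (k + r) < m (k + (r + 1)) := by simpa [Nat.add_assoc] using this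
    omega

theorem Lac.D_pos (L : Lac b e m D lam) : 1 ≤ D := by
  have h1 := L.le 0
  have h2 := Int.one_le_abs (L.ne 0)
  omega

theorem Lac.bR (L : Lac b e m D lam) : (2 : ℝ) ≤ b := by
  exact_mod_cast L.hb

theorem Lac.term (L : Lac b e m D lam) (k r : ℕ) :
    |(e (k + r) : ℝ) / (b : ℝ) ^ (m (k + r))| ≤ D / (b : ℝ) ^ (m k) * (1 / 2) ^ r := by
  have hb := L.bR
  have h1 : |(e (k + r) : ℝ)| ≤ D := by exact_mod_cast L.le (k + r)
  have h2 : (b : ℝ) ^ (m k) * 2 ^ r ≤ (b : ℝ) ^ (m (k + r)) := by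
    calc (b : ℝ) ^ (m k) * 2 ^ r ≤ (b : ℝ) ^ (m k) * (b : ℝ) ^ r := by
          gcongr
      _ = (b : ℝ) ^ (m k + r) := (pow_add _ _ _).symm
      _ ≤ (b : ℝ) ^ (m (k + r)) := pow_le_pow_right₀ (by linarith) (m_add L.mono k r)
  have h3 : (0 : ℝ) < (b : ℝ) ^ (m k) := by positivity
  rw [abs_div, abs_of_pos (by positivity : (0 : ℝ) < (b : ℝ) ^ (m (k + r)))]
  rw [one_div, inv_pow, ← div_eq_mul_inv, div_div]
  have h4 : (0 : ℝ) < (b : ℝ) ^ (m k) * 2 ^ r := by positivity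
  calc |(e (k + r) : ℝ)| / (b : ℝ) ^ (m (k + r)) ≤ D / (b : ℝ) ^ (m (k + r)) := by gcongr
    _ ≤ D / ((b : ℝ) ^ (m k) * 2 ^ r) := by gcongr

theorem Lac.summable (L : Lac b e m D lam) :
    Summable (fun i => (e i : ℝ) / (b : ℝ) ^ (m i)) := by
  have h1 : Summable (fun r : ℕ => D / (b : ℝ) ^ (m 0) * (1 / 2 : ℝ) ^ r) :=
    summable_geometric_two.mul_left _
  refine Summable.of_norm_bounded h1 fun r => ?_
  have := L.term 0 r
  rw [Nat.zero_add] at this
  rw [Real.norm_eq_abs]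
  exact this

theorem Lac.tail (L : Lac b e m D lam) (k : ℕ) :
    |theta b e m - ∑ r ∈ Finset.range k, (e r : ℝ) / (b : ℝ) ^ (m r)| ≤
      2 * D / (b : ℝ) ^ (m k) := by
  have h1 := L.summable.sum_add_tsum_nat_add k
  have h2 : theta b e m - ∑ r ∈ Finset.range k, (e r : ℝ) / (b : ℝ) ^ (m r) =
      ∑' r, (e (r + k) : ℝ) / (b : ℝ) ^ (m (r + k)) := by
    unfold theta
    rw [← h1]
    ring
  rw [h2, ← Real.norm_eq_abs]
  have h3 : HasSum (fun r : ℕ => D / (b : ℝ) ^ (m k) * (1 / 2 : ℝ) ^ r)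
      (D / (b : ℝ) ^ (m k) * 2) := hasSum_geometric_two.mul_left _
  have h4 := tsum_of_norm_bounded h3 (f := fun r => (e (r + k) : ℝ) / (b : ℝ) ^ (m (r + k)))
    (fun r => by
      have := L.term k r
      rw [Nat.add_comm k r] at this
      rw [Real.norm_eq_abs]
      exact this)
  refine h4.trans (le_of_eq ?_)
  ring

theorem Lac.partial_le (L : Lac b e m D lam) (k : ℕ) :
    |∑ r ∈ Finset.range k, (e r : ℝ) / (b : ℝ) ^ (m r)| ≤ 2 * D := by
  have hb := L.bR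
  have hD : (0 : ℝ) ≤ D := Nat.cast_nonneg _
  calc |∑ r ∈ Finset.range k, (e r : ℝ) / (b : ℝ) ^ (m r)|
      ≤ ∑ r ∈ Finset.range k, |(e r : ℝ) / (b : ℝ) ^ (m r)| := Finset.abs_sum_le_sum_abs _ _
    _ ≤ ∑ r ∈ Finset.range k, D * (1 / 2 : ℝ) ^ r := by
        refine Finset.sum_le_sum fun r _ => ?_
        have h1 := L.term 0 r
        rw [Nat.zero_add] at h1
        refine h1.trans ?_
        have h2 : (D : ℝ) / (b : ℝ) ^ (m 0) ≤ D :=
          div_le_self hD (one_le_pow₀ (by linarith))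
        exact mul_le_mul_of_nonneg_right h2 (by positivity)
    _ = D * ∑ r ∈ Finset.range k, (1 / 2 : ℝ) ^ r := by rw [Finset.mul_sum]
    _ ≤ D * 2 := by
        refine mul_le_mul_of_nonneg_left ?_ hD
        exact sum_geometric_two_le k
    _ = 2 * D := by ring

theorem Pn_cast (hm : StrictMono m) (hb : 2 ≤ b) (k : ℕ) :
    (Pn b e m k : ℝ) = (b : ℝ) ^ (m k) *
      ∑ r ∈ Finset.range (k + 1), (e r : ℝ) / (b : ℝ) ^ (m r) := by
  have hb0 : (b : ℝ) ≠ 0 := by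
    have : b ≠ 0 := by omega
    exact_mod_cast this
  unfold Pn
  rw [Finset.mul_sum]
  push_cast
  refine Finset.sum_congr rfl fun r hr => ?_
  have h1 : m r ≤ m k := hm.monotone (by rw [Finset.mem_range] at hr; omega)
  rw [pow_sub₀ _ hb0 h1]
  field_simp

theorem Lac.Pn_le (L : Lac b e m D lam) (k : ℕ) :
    |(Pn b e m k : ℝ)| ≤ 2 * D * (b : ℝ) ^ (m k) := by
  rw [Pn_cast L.mono L.hb, abs_mul, abs_of_nonneg (by positivity : (0 : ℝ) ≤ (b : ℝ) ^ (m k))]
  rw [mul_comm]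
  exact mul_le_mul_of_nonneg_right (L.partial_le (k + 1)) (by positivity)

theorem Pn_succ (hm : StrictMono m) (k : ℕ) :
    Pn b e m (k + 1) = Pn b e m k * (b : ℤ) ^ (m (k + 1) - m k) + e (k + 1) := by
  unfold Pn
  rw [Finset.sum_range_succ, Nat.sub_self, pow_zero, mul_one, Finset.sum_mul]
  congr 1
  refine Finset.sum_congr rfl fun r hr => ?_
  have h1 : m r ≤ m k := hm.monotone (by rw [Finset.mem_range] at hr; omega)
  have h2 : m k ≤ m (k + 1) := hm.monotone (Nat.le_succ k)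
  rw [mul_assoc, ← pow_add]
  congr 2
  omega

theorem Pn_split (hm : StrictMono m) (k T : ℕ) (hT : T ≤ k) :
    Pn b e m k = (∑ t ∈ Finset.range T, e (k - t) * (b : ℤ) ^ (m k - m (k - t))) +
      Pn b e m (k - T) * (b : ℤ) ^ (m k - m (k - T)) := by
  induction T with
  | zero => simp
  | succ T ih =>
    rw [ih (by omega), Finset.sum_range_succ, add_assoc]
    congr 1
    have h1 : k - T = (k - (T + 1)) + 1 := by omega
    have h2 : m (k - (T + 1)) ≤ m (k - (T + 1) + 1) := hm.monotone (by omega)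
    have h3 : m (k - (T + 1) + 1) ≤ m k := hm.monotone (by omega)
    rw [h1, Pn_succ hm, add_mul, mul_assoc, ← pow_add]
    rw [add_comm]
    congr 3
    omega

theorem Lac.growth (L : Lac b e m D lam) :
    ∃ i₀, ∀ k, i₀ ≤ k → ∀ t, lam ^ t * m k ≤ m (k + t) := by
  obtain ⟨i₀, hi₀⟩ := eventually_atTop.1 L.lac
  have hlam := L.hlam
  refine ⟨i₀, fun k hk t => ?_⟩
  induction t with
  | zero => simp
  | succ t ih =>
    have h1 := hi₀ (k + t) (by omega)
    calc lam ^ (t + 1) * m k = lam * (lam ^ t * m k) := by ring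
      _ ≤ lam * m (k + t) := by gcongr
      _ ≤ m (k + t + 1) := h1
      _ = m (k + (t + 1)) := by rw [Nat.add_assoc]

theorem exK (hm : StrictMono m) (β y : ℝ) (hβ : 0 < β) (s : ℕ) (hs : m s * β < y) :
    ∃ K, s ≤ K ∧ m K * β < y ∧ y ≤ m (K + 1) * β := by
  classical
  have hex : ∃ k, y ≤ m (s + k + 1) * β := by
    obtain ⟨k, hk⟩ := exists_nat_ge (y / β)
    refine ⟨k, ?_⟩
    rw [div_le_iff₀ hβ] at hk
    have h1 : k ≤ m (s + k + 1) := by
      have := hm.le_apply (x := s + k + 1)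
      omega
    have h2 : (k : ℝ) ≤ m (s + k + 1) := by exact_mod_cast h1
    nlinarith
  refine ⟨s + Nat.find hex, by omega, ?_, Nat.find_spec hex⟩
  rcases Nat.eq_zero_or_pos (Nat.find hex) with h | h
  · rw [h]
    exact hs
  · have h1 := Nat.find_min hex (m := Nat.find hex - 1) (by omega)
    rw [not_le] at h1
    have h2 : s + (Nat.find hex - 1) + 1 = s + Nat.find hex := by omega
    rw [h2] at h1
    exact h1

end MPacdTB
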