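import Pool.Agent.Lib.MP_acd137_lc.TB.Dig
import Pool.Agent.Lib.MP_acd137_lc.TB.Lac

/-!
# MP_acd137_lc / TB / Changes: numbers whose digits in base `b` change rarely (helper90)
-/

set_option autoImplicit false

namespace MPacdTB

open Filter Topology

/-- partial sums of the digits -/
theorem sum_dig (b : ℕ) (hb : 2 ≤ b) (x : ℝ) (n : ℕ) :
    ∑ k ∈ Finset.range n, (dig b x k : ℝ) / (b : ℝ) ^ (k + 1) =
      ⌊(b : ℝ) ^ n * x⌋ / (b : ℝ) ^ n - ⌊x⌋ := by
  have hbR : (0 : ℝ) < b := by exact_mod_cast (by omega : 0 < b)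
  induction n with
  | zero => simp
  | succ n ih =>
    rw [Finset.sum_range_succ, ih]
    unfold dig
    push_cast
    field_simp
    ring

theorem floor_tendsto (b : ℕ) (hb : 2 ≤ b) (x : ℝ) :
    Tendsto (fun n : ℕ => (⌊(b : ℝ) ^ n * x⌋ : ℝ) / (b : ℝ) ^ n) atTop (𝓝 x) := by
  have hbR : (1 : ℝ) < b := by exact_mod_cast (by omega : 1 < b)
  have h0 : Tendsto (fun n : ℕ => x - ((b : ℝ) ^ n)⁻¹) atTop (𝓝 x) := by
    have h1 : Tendsto (fun n : ℕ => ((b : ℝ) ^ n)⁻¹) atTop (𝓝 0) :=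
      tendsto_inv_atTop_zero.comp (tendsto_pow_atTop_atTop_of_one_lt hbR)
    simpa using tendsto_const_nhds.sub h1
  refine tendsto_of_tendsto_of_tendsto_of_le_of_le h0 tendsto_const_nhds ?_ ?_
  · intro n
    have hp : (0 : ℝ) < (b : ℝ) ^ n := by positivity
    have h1 := Int.lt_floor_add_one ((b : ℝ) ^ n * x)
    simp only
    rw [le_div_iff₀ hp, sub_mul, inv_mul_cancel₀ hp.ne']
    linarith
  · intro n
    have hp : (0 : ℝ) < (b : ℝ) ^ n := by positivity
    have h1 := Int.floor_le ((b : ℝ) ^ n * x)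
    simp only
    rw [div_le_iff₀ hp]
    linarith

/-- the series of the differences of the digits -/
theorem diff_series (b : ℕ) (hb : 2 ≤ b) (x : ℝ) :
    ((b - 1 : ℕ) : ℝ) * x = (((b : ℤ) - 1) * ⌊x⌋ + dig b x 0 : ℤ) +
      ∑' k : ℕ, ((dig b x (k + 1) - dig b x k : ℤ) : ℝ) / (b : ℝ) ^ (k + 1) := by
  have hbR : (1 : ℝ) < b := by exact_mod_cast (by omega : 1 < b)
  have hb0 : (0 : ℝ) < b := by linarith
  have hsum : Summable fun k : ℕ => ((dig b x (k + 1) - dig b x k : ℤ) : ℝ) / (b : ℝ) ^ (k + 1) := by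
    have h1 : Summable fun k : ℕ => (1 / (b : ℝ)) ^ k :=
      summable_geometric_of_lt_one (by positivity) (by rw [div_lt_one hb0]; exact hbR)
    refine Summable.of_norm_bounded h1 fun k => ?_
    obtain ⟨h2, h3⟩ := dig_range b (by omega) x k
    obtain ⟨h4, h5⟩ := dig_range b (by omega) x (k + 1)
    have h6 : |((dig b x (k + 1) - dig b x k : ℤ) : ℝ)| ≤ b := by
      have : |dig b x (k + 1) - dig b x k| ≤ (b : ℤ) := by
        rw [abs_le]
        constructor <;> omega
      exact_mod_cast this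
    have hp : (0 : ℝ) < (b : ℝ) ^ k := by positivity
    rw [Real.norm_eq_abs, abs_div, abs_of_pos (by positivity : (0 : ℝ) < (b : ℝ) ^ (k + 1)),
      div_le_iff₀ (by positivity), one_div, inv_pow, pow_succ, ← mul_assoc,
      inv_mul_cancel₀ hp.ne', one_mul]
    exact h6
  have hfl := floor_tendsto b hb x
  have hpart : ∀ n, ∑ k ∈ Finset.range n,
      ((dig b x (k + 1) - dig b x k : ℤ) : ℝ) / (b : ℝ) ^ (k + 1) =
      b * ((⌊(b : ℝ) ^ (n + 1) * x⌋ / (b : ℝ) ^ (n + 1) - ⌊x⌋) - dig b x 0 / b) -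
        (⌊(b : ℝ) ^ n * x⌋ / (b : ℝ) ^ n - ⌊x⌋) := by
    intro n
    rw [← sum_dig b hb x (n + 1), ← sum_dig b hb x n, Finset.sum_range_succ']
    simp only [Nat.zero_add, pow_one, add_sub_cancel_right]
    rw [Finset.mul_sum, ← Finset.sum_sub_distrib]
    refine Finset.sum_congr rfl fun k _ => ?_
    push_cast
    rw [pow_succ (b : ℝ) (k + 1)]
    field_simp
  have hlim : Tendsto (fun n => ∑ k ∈ Finset.range n,
      ((dig b x (k + 1) - dig b x k : ℤ) : ℝ) / (b : ℝ) ^ (k + 1)) atTop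
      (𝓝 (b * ((x - ⌊x⌋) - dig b x 0 / b) - (x - ⌊x⌋))) := by
    simp_rw [hpart]
    exact ((((tendsto_add_atTop_iff_nat 1).2 hfl).sub_const _).sub_const _ |>.const_mul _).sub
      (hfl.sub_const _)
  rw [tendsto_nhds_unique hsum.hasSum.tendsto_sum_nat hlim, Nat.cast_sub (by omega)]
  push_cast
  field_simp
  ring

/-- a number whose base `b` digits change exactly at the positions `m i` is, up to an integer factor
and an integer, a series `∑ e i / b ^ m i` -/
theorem of_changes (b : ℕ) (hb : 2 ≤ b) (x : ℝ) (m : ℕ → ℕ) (hm : StrictMono m)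
    (hm0 : 0 < m 0) (h : ∀ k, dig b x k ≠ dig b x (k + 1) ↔ k + 1 ∈ Set.range m) :
    ∃ e : ℕ → ℤ, (∀ i, e i ≠ 0) ∧ (∀ i, |e i| ≤ (b : ℕ)) ∧
      ((b - 1 : ℕ) : ℝ) * x = (((b : ℤ) - 1) * ⌊x⌋ + dig b x 0 : ℤ) +
        ∑' i, (e i : ℝ) / (b : ℝ) ^ (m i) := by
  have hpos : ∀ i, 0 < m i := fun i => lt_of_lt_of_le hm0 (hm.monotone (Nat.zero_le i))
  refine ⟨fun i => dig b x (m i) - dig b x (m i - 1), fun i => ?_, fun i => ?_, ?_⟩
  · have h1 := (h (m i - 1)).2 (by
      rw [Nat.sub_add_cancel (hpos i)]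
      exact ⟨i, rfl⟩)
    rw [Nat.sub_add_cancel (hpos i)] at h1
    intro h2
    exact h1 (sub_eq_zero.1 h2).symm
  · obtain ⟨h2, h3⟩ := dig_range b (by omega) x (m i)
    obtain ⟨h4, h5⟩ := dig_range b (by omega) x (m i - 1)
    simp only
    rw [abs_le]
    constructor <;> omega
  · rw [diff_series b hb x]
    congr 1
    have hinj : Function.Injective fun i => m i - 1 := by
      intro i j hij
      apply hm.injective
      have h1 := hpos i
      have h2 := hpos j
      simp only at hij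
      omega
    rw [← hinj.tsum_eq]
    · refine tsum_congr fun i => ?_
      rw [Nat.sub_add_cancel (hpos i)]
    · intro k hk
      rw [Function.mem_support] at hk
      have h1 : dig b x k ≠ dig b x (k + 1) := by
        intro h2
        apply hk
        rw [← h2]
        simp
      obtain ⟨i, hi⟩ := (h k).1 h1
      exact ⟨i, by simp only; omega⟩

end MPacdTB
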