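import Pool.Agent.Lib.MP_acd137_lc.TB.SL

/-!
# MP_acd137_lc / TB / Basic: S-units, constancy along ultrafilters, a p-adic estimate (helper90)
-/

set_option autoImplicit false

namespace MPacdTB

open Filter Topology Pool.Agent.SubQ

theorem lv_pow {s : ℕ} (q : Fin s → ℕ) (hq : Pls q) (v : Option (Fin s)) (z : ℤ) (hz : z ≠ 0)
    (k : ℕ) : lv q v (z ^ k) = k * lv q v z := by
  induction k with
  | zero =>
    cases v with
    | none => simp [lv]
    | some v => simp [lv]
  | succ k ih =>
    rw [pow_succ, (lvBasic s q hq).2.1 v _ _ (pow_ne_zero _ hz) hz, ih]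
    push_cast
    ring

theorem sum_lv_nat {s : ℕ} (q : Fin s → ℕ) (hq : Pls q) (N : ℕ) (hN : N ≠ 0)
    (h : ∀ r : ℕ, r.Prime → r ∣ N → ∃ v, q v = r) : ∑ v, lv q v (N : ℤ) = 0 := by
  classical
  rw [Fintype.sum_option]
  have h1 : lv q none (N : ℤ) = Real.log N := by
    simp [lv]
  have h2 : ∀ v, lv q (some v) (N : ℤ) = -((N.factorization (q v) : ℝ) * Real.log (q v)) := by
    intro v
    rw [Nat.factorization_def N (hq.prime v)]
    simp [lv]
  rw [h1, Real.log_nat_eq_sum_factorization]
  simp only [h2]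
  rw [Finset.sum_neg_distrib]
  have h3 : ∑ v, ((N.factorization (q v) : ℝ) * Real.log (q v)) =
      ∑ p ∈ Finset.univ.image q, (N.factorization p : ℝ) * Real.log p := by
    rw [Finset.sum_image]
    intro a _ b _ hab
    exact hq.inj hab
  rw [h3, Finsupp.sum]
  rw [Finset.sum_subset (s₁ := N.factorization.support) (s₂ := Finset.univ.image q)]
  · ring
  · intro p hp
    rw [Nat.support_factorization, Nat.mem_primeFactors] at hp
    obtain ⟨v, hv⟩ := h p hp.1 hp.2.1
    rw [Finset.mem_image]
    exact ⟨v, Finset.mem_univ _, hv⟩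
  · intro p _ hp
    rw [Finsupp.notMem_support_iff] at hp
    rw [hp]
    simp

theorem sum_lv_le {s : ℕ} (q : Fin s → ℕ) (hq : Pls q) (z : ℤ) :
    ∑ v, lv q v z ≤ Real.log |(z : ℝ)| := by
  rw [Fintype.sum_option]
  have h : ∑ v, lv q (some v) z ≤ 0 := by
    refine Finset.sum_nonpos fun v _ => ?_
    have h2 : 0 ≤ Real.log (q v) := Real.log_nonneg (by exact_mod_cast (hq.prime v).one_le)
    have h3 : 0 ≤ (padicValInt (q v) z : ℝ) * Real.log (q v) :=
      mul_nonneg (Nat.cast_nonneg _) h2
    change -((padicValInt (q v) z : ℝ) * Real.log (q v)) ≤ 0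
    linarith
  have h1 : lv q none z = Real.log |(z : ℝ)| := rfl
  rw [h1]
  linarith

theorem places (N : ℕ) (hN : N ≠ 0) : ∃ (s : ℕ) (q : Fin s → ℕ), Pls q ∧
    ∀ r : ℕ, r.Prime → r ∣ N → ∃ v, q v = r := by
  classical
  obtain ⟨e⟩ : Nonempty (N.primeFactors ≃ Fin N.primeFactors.card) := ⟨N.primeFactors.equivFin⟩
  refine ⟨N.primeFactors.card, fun v => (e.symm v : ℕ), ⟨fun v => ?_, ?_⟩, ?_⟩
  · exact Nat.prime_of_mem_primeFactors (e.symm v).2
  · intro a b hab
    exact e.symm.injective (Subtype.ext hab)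
  · intro r hr hrN
    exact ⟨e ⟨r, Nat.mem_primeFactors.2 ⟨hr, hrN, hN⟩⟩, by simp⟩

theorem constNat (𝒰 : Ultrafilter ℕ) (f : ℕ → ℕ) (T : ℕ)
    (h : ∀ᶠ l in (𝒰 : Filter ℕ), f l < T) : ∃ t, t < T ∧ ∀ᶠ l in (𝒰 : Filter ℕ), f l = t := by
  have hT : 0 < T := by
    obtain ⟨l, hl⟩ := h.exists
    omega
  obtain ⟨a, ha⟩ := limEx.2 𝒰 (Fin T) (fun l => if h : f l < T then ⟨f l, h⟩ else ⟨0, hT⟩)
  refine ⟨a, a.2, ?_⟩
  filter_upwards [h, ha] with l h1 h2
  rw [dif_pos h1] at h2
  rw [← h2]

theorem constInt (𝒰 : Ultrafilter ℕ) (f : ℕ → ℤ) (D : ℕ)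
    (h : ∀ᶠ l in (𝒰 : Filter ℕ), |f l| ≤ D) : ∃ t, ∀ᶠ l in (𝒰 : Filter ℕ), f l = t := by
  obtain ⟨t, _, ht⟩ := constNat 𝒰 (fun l => (f l + D).toNat) (2 * D + 1) (by
    filter_upwards [h] with l hl
    rw [abs_le] at hl
    omega)
  refine ⟨(t : ℤ) - D, ?_⟩
  filter_upwards [h, ht] with l h1 h2
  rw [abs_le] at h1
  omega

/-- either `J` tends to infinity or it is constant -/
theorem constOrTop (𝒰 : Ultrafilter ℕ) (J : ℕ → ℕ) :
    Tendsto J 𝒰 atTop ∨ ∃ t, ∀ᶠ l in (𝒰 : Filter ℕ), J l = t := by
  by_cases h : ∃ N, ∀ᶠ l in (𝒰 : Filter ℕ), J l < N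
  · obtain ⟨N, hN⟩ := h
    obtain ⟨t, _, ht⟩ := constNat 𝒰 J N hN
    exact Or.inr ⟨t, ht⟩
  · left
    rw [tendsto_atTop]
    intro N
    rcases 𝒰.em (fun l => N ≤ J l) with h1 | h1
    · exact h1
    · exfalso
      exact h ⟨N, h1.mono fun l hl => by simpa using hl⟩

/-- `z c^J + z'` is not `p`-adically small unless it is zero. -/
theorem lp {s : ℕ} (q : Fin s → ℕ) (hq : Pls q) (vp : Fin s) (c : ℕ) (hc : 2 ≤ c)
    (hqc : ∀ r : ℕ, r.Prime → r ∣ c → ∃ v, q v = r) (hpc : ¬ q vp ∣ c)
    (𝒰 : Ultrafilter ℕ) (T : ℕ → ℕ) (hT : Tendsto T 𝒰 atTop) (J : ℕ → ℕ)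
    (hJ : ∀ᶠ l in (𝒰 : Filter ℕ), J l ≤ T l) (z z' : ℚ)
    (hW : ∀ᶠ l in (𝒰 : Filter ℕ), z * (c : ℚ) ^ (J l) + z' ≠ 0) (C κ : ℝ) (hκ : 0 < κ)
    (hsm : ∀ᶠ l in (𝒰 : Filter ℕ),
      ((padicNorm (q vp) (z * (c : ℚ) ^ (J l) + z') : ℚ) : ℝ) ≤ C * Real.exp (-(κ * T l))) :
    False := by
  classical
  have hp : Fact (q vp).Prime := ⟨hq.prime vp⟩
  have hlogp : 0 < Real.log (q vp) := Real.log_pos (by exact_mod_cast (hq.prime vp).one_lt)
  have hTr : Tendsto (fun l => (T l : ℝ)) 𝒰 atTop := tendsto_natCast_atTop_atTop.comp hT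
  obtain ⟨D, w, hD, hw⟩ := clear (fun t : Bool => if t then z else z')
  have hw1 : (w true : ℚ) = D * z := by simpa using hw true
  have hw0 : (w false : ℚ) = D * z' := by simpa using hw false
  obtain ⟨V, hV⟩ : ∃ V : ℕ → ℤ, V = fun l => w true * (c : ℤ) ^ (J l) + w false := ⟨_, rfl⟩
  have hVq : ∀ l, (V l : ℚ) = D * (z * (c : ℚ) ^ (J l) + z') := by
    intro l
    rw [hV]
    push_cast
    rw [hw1, hw0]
    ring
  have hDq : (D : ℚ) ≠ 0 := by
    have : D ≠ 0 := by omega
    exact_mod_cast this
  have hVne : ∀ᶠ l in (𝒰 : Filter ℕ), V l ≠ 0 := by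
    filter_upwards [hW] with l hl h
    have h1 := hVq l
    rw [h, Int.cast_zero] at h1
    rcases mul_eq_zero.1 h1.symm with h2 | h2
    · exact hDq h2
    · exact hl h2
  -- the valuation is large
  have hlow : ∀ᶠ l in (𝒰 : Filter ℕ),
      lv q (some vp) (V l) ≤ -(κ * T l) + Real.log (|C| + 1) := by
    filter_upwards [hsm, hVne, hW] with l h1 h2 h3
    have h4 : ((padicNorm (q vp) (V l : ℚ) : ℚ) : ℝ) ≤ C * Real.exp (-(κ * T l)) := by
      rw [hVq l, padicNorm.mul]
      have h5 : padicNorm (q vp) (D : ℚ) ≤ 1 := by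
        exact_mod_cast padicNorm.of_int (p := q vp) (D : ℤ)
      have h6 : 0 ≤ padicNorm (q vp) (z * (c : ℚ) ^ (J l) + z') := padicNorm.nonneg _
      have h7 : padicNorm (q vp) (D : ℚ) * padicNorm (q vp) (z * (c : ℚ) ^ (J l) + z') ≤
          padicNorm (q vp) (z * (c : ℚ) ^ (J l) + z') := by nlinarith
      exact (by exact_mod_cast h7 : ((padicNorm (q vp) (D : ℚ) *
        padicNorm (q vp) (z * (c : ℚ) ^ (J l) + z') : ℚ) : ℝ) ≤ _).trans h1
    have h5 : ((padicNorm (q vp) (V l : ℚ) : ℚ) : ℝ) =
        Real.exp (-((padicValInt (q vp) (V l) : ℝ) * Real.log (q vp))) := by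
      rw [padicNorm.eq_zpow_of_nonzero (by exact_mod_cast h2), padicValRat.of_int]
      push_cast
      rw [← Real.rpow_intCast, Real.rpow_def_of_pos (by exact_mod_cast (hq.prime vp).pos)]
      push_cast
      congr 1
      ring
    rw [h5] at h4
    have h6 : C * Real.exp (-(κ * T l)) ≤ (|C| + 1) * Real.exp (-(κ * T l)) := by
      refine mul_le_mul_of_nonneg_right ?_ (Real.exp_pos _).le
      linarith [le_abs_self C]
    have h7 := h4.trans h6
    have h8 : 0 < |C| + 1 := by positivity
    have h9 := Real.log_le_log (Real.exp_pos _) h7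
    rw [Real.log_exp, Real.log_mul h8.ne' (Real.exp_pos _).ne', Real.log_exp] at h9
    change -((padicValInt (q vp) (V l) : ℝ) * Real.log (q vp)) ≤ _
    linarith
  -- no constant
  have hconst : ∀ a : ℤ, ¬ ∀ᶠ l in (𝒰 : Filter ℕ), V l = a := by
    intro a ha
    obtain ⟨l, h1, h2, h3⟩ := (ha.and (hlow.and
      (hTr.eventually_ge_atTop ((Real.log (|C| + 1) - lv q (some vp) a + 1) / κ)))).exists
    rw [h1] at h2
    rw [div_le_iff₀ hκ] at h3
    linarith
  rcases constOrTop 𝒰 J with hJt | ⟨t, ht⟩
  · by_cases hw1' : w true = 0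
    · apply hconst (w false)
      filter_upwards with l
      rw [hV]
      simp [hw1']
    · -- the Subspace theorem in dimension 2
      have hcpow : ∀ N : ℤ, ∀ᶠ l in (𝒰 : Filter ℕ), N < (c : ℤ) ^ (J l) := by
        intro N
        filter_upwards [hJt.eventually_ge_atTop N.toNat] with l hl
        have h1 : J l < c ^ (J l) := Nat.lt_pow_self (by omega)
        have h2 : ((J l : ℕ) : ℤ) < ((c ^ (J l) : ℕ) : ℤ) := by exact_mod_cast h1
        push_cast at h2
        have h3 : N ≤ J l := by omega
        omega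
      obtain ⟨χ, hχ⟩ := limEx.1 𝒰 (fun l => (J l : ℝ) / T l) 1 (by
        filter_upwards [hJ, hT.eventually_ge_atTop 1] with l h1 h2
        have h3 : (0 : ℝ) < T l := by exact_mod_cast h2
        rw [abs_of_nonneg (by positivity), div_le_one h3]
        exact_mod_cast h1)
      have hcz : (c : ℤ) ≠ 0 := by omega
      have key := sl q hq 𝒰 T hT (fun l (t : Bool) => if t then (c : ℤ) ^ (J l) else 1)
        (by
          intro a ha
          by_cases h1 : a true = 0
          · have h0 : a false ≠ 0 := by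
              intro h0
              apply ha
              funext t
              cases t
              · exact h0
              · exact h1
            filter_upwards with l
            simp [h1, h0]
          · filter_upwards [hcpow (|a false|)] with l hl
            intro h
            have h2 : a true * (c : ℤ) ^ (J l) = - a false := by
              simp at h
              linarith
            have h3 : |a true| * (c : ℤ) ^ (J l) = |a false| := by
              have := congrArg abs h2
              rwa [abs_mul, abs_neg, abs_of_nonneg (by positivity : (0 : ℤ) ≤ (c : ℤ) ^ (J l))]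
                at this
            have h4 : 1 ≤ |a true| := Int.one_le_abs h1
            have h5 : 0 < (c : ℤ) ^ (J l) := by positivity
            have h6 : 1 * (c : ℤ) ^ (J l) ≤ |a true| * (c : ℤ) ^ (J l) :=
              mul_le_mul_of_nonneg_right h4 h5.le
            linarith)
        (Real.log c) (by
          intro t
          filter_upwards [hJ] with l hl
          have h1 : (1 : ℝ) ≤ Real.exp (Real.log c * T l) := by
            apply Real.one_le_exp
            have : 0 ≤ Real.log (c : ℝ) := Real.log_nonneg (by exact_mod_cast (by omega : 1 ≤ c))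
            positivity
          cases t
          · simpa using h1
          · simp only [if_true]
            push_cast
            rw [abs_of_nonneg (by positivity), Real.exp_mul, Real.exp_log (by positivity),
              Real.rpow_natCast]
            exact pow_le_pow_right₀ (by exact_mod_cast (by omega : 1 ≤ c)) hl)
        (fun v t => if t then χ * lv q v (c : ℤ) else 0) (some vp) true w hw1' (-κ)
        (by
          intro v t _ ε hε
          cases t
          · filter_upwards [hT.eventually_ge_atTop 1] with l hl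
            have h3 : (0 : ℝ) < T l := by exact_mod_cast hl
            have h4 : lv q v (1 : ℤ) = 0 := by
              have := lv_pow q hq v 1 one_ne_zero 0
              simpa using this
            simp only [Bool.false_eq_true, if_false, h4]
            positivity
          · have h5 : Tendsto (fun l => (J l : ℝ) / T l * lv q v (c : ℤ)) 𝒰
                (𝓝 (χ * lv q v (c : ℤ))) := hχ.mul_const _
            filter_upwards [h5.eventually_lt_const (lt_add_of_pos_right _ hε),
              hT.eventually_ge_atTop 1] with l h6 h7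
            have h3 : (0 : ℝ) < T l := by exact_mod_cast h7
            simp only [if_true]
            rw [lv_pow q hq v _ hcz, ← div_le_iff₀ h3]
            refine le_trans (le_of_eq ?_) h6.le
            ring)
        (by
          intro ε hε
          filter_upwards [hlow, hTr.eventually_ge_atTop (Real.log (|C| + 1) / ε)] with l h1 h2
          have h3 : ∑ t : Bool, w t * (if t then (c : ℤ) ^ (J l) else 1) = V l := by
            rw [hV]
            simp
          rw [h3]
          rw [div_le_iff₀ hε] at h2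
          linarith)
      rw [sum_ite_pair (fun (v : Option (Fin s)) (t : Bool) =>
        if t then χ * lv q v (c : ℤ) else 0)] at key
      simp only [Fintype.sum_bool, if_true, Bool.false_eq_true, if_false,
        Finset.sum_const_zero] at key
      rw [← Finset.mul_sum, sum_lv_nat q hq c (by omega) hqc] at key
      have h8 : lv q (some vp) (c : ℤ) = 0 := by
        have : padicValInt (q vp) (c : ℤ) = 0 := by
          rw [padicValInt.of_nat]
          exact padicValNat.eq_zero_of_not_dvd hpc
        simp [lv, this]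
      rw [h8] at key
      linarith
  · apply hconst (w true * (c : ℤ) ^ t + w false)
    filter_upwards [ht] with l hl
    rw [hV]
    simp only
    rw [hl]

end MPacdTB
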