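import Mathlib

/-!
# MP_acd137_lc / TB / Defs: digits, block complexity, automatic sequences (helper90)
-/

set_option autoImplicit false

namespace MPacdTB

/-- The `k`-th digit after the point (`k = 0, 1, 2, ...`) of the base `c` expansion of `x`:
`⌊c^(k+1) x⌋ - c ⌊c^k x⌋`. -/
noncomputable def dig (c : ℕ) (x : ℝ) (k : ℕ) : ℤ :=
  ⌊(c : ℝ) ^ (k + 1) * x⌋ - c * ⌊(c : ℝ) ^ k * x⌋

/-- The block complexity of a sequence: the number of different words of length `n` which occur
in the sequence. -/
noncomputable def cplx (a : ℕ → ℤ) (n : ℕ) : ℕ :=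
  (Set.range fun k : ℕ => fun r : Fin n => a (k + r)).ncard

/-- A sequence is `k`-automatic (generated by a finite automaton reading the position in base `k`)
if its `k`-kernel, the set of the subsequences `n ↦ a (k^u n + v)` with `v < k^u`, is finite. -/
def Automatic (k : ℕ) (a : ℕ → ℤ) : Prop :=
  {f : ℕ → ℤ | ∃ u v : ℕ, v < k ^ u ∧ f = fun n => a (k ^ u * n + v)}.Finite

end MPacdTB
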