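import Pool.Agent.Lib.MP_acd137_lc.TB.Defs

/-!
# MP_acd137_lc / TB / Dig: facts on digits and block complexity (helper90)
-/

set_option autoImplicit false

namespace MPacdTB

open Filter Topology

theorem dig_fract (c : ℕ) (x : ℝ) (k : ℕ) :
    (c : ℝ) * Int.fract ((c : ℝ) ^ k * x) =
      dig c x k + Int.fract ((c : ℝ) ^ (k + 1) * x) := by
  unfold dig Int.fract
  push_cast
  rw [pow_succ]
  ring

theorem dig_range (c : ℕ) (hc : 1 ≤ c) (x : ℝ) (k : ℕ) : 0 ≤ dig c x k ∧ dig c x k < c := by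
  have h := dig_fract c x k
  have h1 := Int.fract_nonneg ((c : ℝ) ^ k * x)
  have h2 := Int.fract_lt_one ((c : ℝ) ^ k * x)
  have h3 := Int.fract_nonneg ((c : ℝ) ^ (k + 1) * x)
  have h4 := Int.fract_lt_one ((c : ℝ) ^ (k + 1) * x)
  have hcR : (1 : ℝ) ≤ c := by exact_mod_cast hc
  have h5 : 0 ≤ (c : ℝ) * Int.fract ((c : ℝ) ^ k * x) := by positivity
  have h6 : (c : ℝ) * Int.fract ((c : ℝ) ^ k * x) < c := by nlinarith
  constructor
  · have : (-1 : ℝ) < dig c x k := by linarith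
    have h7 : (-1 : ℤ) < dig c x k := by exact_mod_cast this
    omega
  · have : (dig c x k : ℝ) < c := by linarith
    exact_mod_cast this

/-- equal blocks of digits give close fractional parts -/
theorem fract_close (c : ℕ) (hc : 2 ≤ c) (x : ℝ) (n : ℕ) : ∀ i j : ℕ,
    (∀ r, r < n → dig c x (i + r) = dig c x (j + r)) →
    |Int.fract ((c : ℝ) ^ j * x) - Int.fract ((c : ℝ) ^ i * x)| * (c : ℝ) ^ n ≤ 1 := by
  have hcR : (0 : ℝ) < c := by exact_mod_cast (by omega : 0 < c)
  induction n with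
  | zero =>
    intro i j _
    have h1 := Int.fract_nonneg ((c : ℝ) ^ i * x)
    have h2 := Int.fract_lt_one ((c : ℝ) ^ i * x)
    have h3 := Int.fract_nonneg ((c : ℝ) ^ j * x)
    have h4 := Int.fract_lt_one ((c : ℝ) ^ j * x)
    rw [pow_zero, mul_one, abs_le]
    constructor <;> linarith
  | succ n ih =>
    intro i j h
    have h1 := ih (i + 1) (j + 1) (by
      intro r hr
      have := h (r + 1) (by omega)
      rw [show i + 1 + r = i + (r + 1) by ring, show j + 1 + r = j + (r + 1) by ring]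
      exact this)
    have h2 := dig_fract c x i
    have h3 := dig_fract c x j
    have h4 := h 0 (by omega)
    rw [Nat.add_zero, Nat.add_zero] at h4
    rw [← h4] at h3
    have h5 : Int.fract ((c : ℝ) ^ (j + 1) * x) - Int.fract ((c : ℝ) ^ (i + 1) * x) =
        (c : ℝ) * (Int.fract ((c : ℝ) ^ j * x) - Int.fract ((c : ℝ) ^ i * x)) := by
      linarith
    rw [h5, abs_mul, abs_of_pos hcR] at h1
    rw [pow_succ]
    calc |Int.fract ((c : ℝ) ^ j * x) - Int.fract ((c : ℝ) ^ i * x)| * ((c : ℝ) ^ n * c)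
        = (c : ℝ) * |Int.fract ((c : ℝ) ^ j * x) - Int.fract ((c : ℝ) ^ i * x)| *
          (c : ℝ) ^ n := by ring
      _ ≤ 1 := h1

/-- the set of blocks of digits is finite -/
theorem blocks_finite (c : ℕ) (hc : 1 ≤ c) (x : ℝ) (n : ℕ) :
    (Set.range fun k : ℕ => fun r : Fin n => dig c x (k + r)).Finite := by
  refine Set.Finite.subset (Set.Finite.pi' (ι := Fin n) (t := fun _ => Set.Ico (0 : ℤ) c)
    fun _ => Set.finite_Ico _ _) ?_
  rintro _ ⟨k, rfl⟩ r
  exact dig_range c hc x (k + r)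

/-- pigeonhole: in a window of `cplx + 1` positions two blocks agree -/
theorem two_blocks (c : ℕ) (hc : 2 ≤ c) (x : ℝ) (n s N : ℕ) (hN : cplx (dig c x) n < N) :
    ∃ i j : ℕ, s ≤ i ∧ i < j ∧ j < s + N ∧ ∃ B : ℤ,
      |((c : ℝ) ^ j - (c : ℝ) ^ i) * x - B| * (c : ℝ) ^ n ≤ 1 := by
  classical
  have hfin := blocks_finite c (by omega) x n
  have h1 : ∃ a ∈ Finset.range N, ∃ b ∈ Finset.range N, a ≠ b ∧
      (fun r : Fin n => dig c x (s + a + r)) = (fun r : Fin n => dig c x (s + b + r)) := by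
    refine Finset.exists_ne_map_eq_of_card_lt_of_maps_to (t := hfin.toFinset) ?_ ?_
    · rw [Finset.card_range, ← Set.ncard_eq_toFinset_card _ hfin]
      exact hN
    · intro a _
      rw [Set.Finite.coe_toFinset]
      exact ⟨s + a, rfl⟩
  obtain ⟨a, ha, b, hb, hab, h2⟩ := h1
  rw [Finset.mem_range] at ha hb
  have main : ∀ a b : ℕ, a < b → b < N →
      (fun r : Fin n => dig c x (s + a + r)) = (fun r : Fin n => dig c x (s + b + r)) →
      ∃ i j : ℕ, s ≤ i ∧ i < j ∧ j < s + N ∧ ∃ B : ℤ,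
      |((c : ℝ) ^ j - (c : ℝ) ^ i) * x - B| * (c : ℝ) ^ n ≤ 1 := by
    intro a b hab hbN h
    refine ⟨s + a, s + b, by omega, by omega, by omega,
      ⌊(c : ℝ) ^ (s + b) * x⌋ - ⌊(c : ℝ) ^ (s + a) * x⌋, ?_⟩
    have h3 := fract_close c hc x n (s + a) (s + b) (fun r hr => congrFun h ⟨r, hr⟩)
    have h4 : ((c : ℝ) ^ (s + b) - (c : ℝ) ^ (s + a)) * x -
        ((⌊(c : ℝ) ^ (s + b) * x⌋ - ⌊(c : ℝ) ^ (s + a) * x⌋ : ℤ) : ℝ) =
        Int.fract ((c : ℝ) ^ (s + b) * x) - Int.fract ((c : ℝ) ^ (s + a) * x) := by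
      unfold Int.fract
      push_cast
      ring
    rw [h4]
    exact h3
  rcases Nat.lt_or_ge a b with h3 | h3
  · exact main a b h3 hb h2
  · exact main b a (by omega) ha h2.symm

/-- automatic sequences with finitely many values have linear block complexity -/
theorem automatic_cplx (k : ℕ) (hk : 2 ≤ k) (a : ℕ → ℤ) (c : ℕ) (ha : ∀ n, 0 ≤ a n ∧ a n < c)
    (h : Automatic k a) : ∃ C : ℕ, ∀ n, 1 ≤ n → cplx a n ≤ C * n := by
  classical
  obtain ⟨F, hF⟩ : ∃ F : Finset (ℕ → ℤ), (F : Set (ℕ → ℤ)) =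
    {f : ℕ → ℤ | ∃ u v : ℕ, v < k ^ u ∧ f = fun n => a (k ^ u * n + v)} :=
    ⟨h.toFinset, h.coe_toFinset⟩
  -- the vector of the values of the kernel
  obtain ⟨V, hV⟩ : ∃ V : ℕ → (F → Fin (c + 1)), V = fun u f =>
    Fin.ofNat (c + 1) ((f.1 u).toNat) := ⟨_, rfl⟩
  have hVeq : ∀ u w, V u = V w → ∀ f ∈ F, f u = f w := by
    intro u w huw f hf
    have h1 := congrFun huw ⟨f, hf⟩
    have hf' : f ∈ (F : Set (ℕ → ℤ)) := hf
    rw [hF] at hf'
    obtain ⟨p, v, _, rfl⟩ := hf'
    rw [hV] at h1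
    simp only at h1
    have h2 := congrArg Fin.val h1
    simp only [Fin.ofNat] at h2
    have h3 := ha (k ^ p * u + v)
    have h4 := ha (k ^ p * w + v)
    rw [Nat.mod_eq_of_lt (by omega), Nat.mod_eq_of_lt (by omega)] at h2
    simp only
    omega
  obtain ⟨Q, hQ⟩ : ∃ Q : ℕ, Q = Fintype.card (F → Fin (c + 1)) := ⟨_, rfl⟩
  refine ⟨k * (Q * Q), fun n hn => ?_⟩
  -- a power of `k` between `n` and `k n`
  obtain ⟨p, hp1, hp2⟩ : ∃ p, n ≤ k ^ p ∧ k ^ p ≤ k * n := by
    have hex : ∃ p, n ≤ k ^ p := ⟨n, (Nat.lt_pow_self (by omega)).le⟩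
    refine ⟨Nat.find hex, Nat.find_spec hex, ?_⟩
    rcases Nat.eq_zero_or_pos (Nat.find hex) with h0 | h0
    · rw [h0, pow_zero]
      nlinarith
    · have h1 := Nat.find_min hex (m := Nat.find hex - 1) (by omega)
      rw [not_le] at h1
      have h2 : k ^ (Nat.find hex) = k * k ^ (Nat.find hex - 1) := by
        rw [← pow_succ']
        congr 1
        omega
      rw [h2]
      exact Nat.mul_le_mul_left k h1.le
  have hkp : 0 < k ^ p := by positivity
  -- the code of a position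
  obtain ⟨cd, hcd⟩ : ∃ cd : ℕ → Fin (k ^ p) × ((F → Fin (c + 1)) × (F → Fin (c + 1))),
    cd = fun i => (⟨i % k ^ p, Nat.mod_lt _ hkp⟩, (V (i / k ^ p), V (i / k ^ p + 1))) := ⟨_, rfl⟩
  have hcode : ∀ i j, cd i = cd j → (fun r : Fin n => a (i + r)) = fun r : Fin n => a (j + r) := by
    intro i j hij
    rw [hcd] at hij
    simp only [Prod.mk.injEq, Fin.mk.injEq] at hij
    obtain ⟨h1, h2, h3⟩ := hij
    funext r
    have hr := r.2
    have hmem : ∀ v, v < k ^ p → (fun n => a (k ^ p * n + v)) ∈ F := by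
      intro v hv
      have : (fun n => a (k ^ p * n + v)) ∈ (F : Set (ℕ → ℤ)) := by
        rw [hF]
        exact ⟨p, v, hv, rfl⟩
      exact this
    have hi := Nat.div_add_mod i (k ^ p)
    have hj := Nat.div_add_mod j (k ^ p)
    rcases Nat.lt_or_ge (i % k ^ p + r) (k ^ p) with h4 | h4
    · have h5 := hVeq _ _ h2 _ (hmem _ h4)
      rw [← hi, ← hj, Nat.add_assoc, Nat.add_assoc, h5, ← h1]
    · have h6 : i % k ^ p < k ^ p := Nat.mod_lt _ hkp
      have h5 := hVeq _ _ h3 _ (hmem (i % k ^ p + r - k ^ p) (by omega))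
      have h7 : i + r = k ^ p * (i / k ^ p + 1) + (i % k ^ p + r - k ^ p) := by
        rw [Nat.mul_add, Nat.mul_one]
        omega
      have h8 : j + r = k ^ p * (j / k ^ p + 1) + (i % k ^ p + r - k ^ p) := by
        rw [Nat.mul_add, Nat.mul_one]
        omega
      rw [h7, h8]
      exact h5
  have hsub : (Set.range fun i : ℕ => fun r : Fin n => a (i + r)) ⊆
      (fun i : ℕ => fun r : Fin n => a (i + r)) ''
        (Set.range fun y : Set.range cd => Classical.choose y.2) := by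
    rintro _ ⟨i, rfl⟩
    refine ⟨Classical.choose (Set.mem_range_self (f := cd) i), ⟨⟨cd i, Set.mem_range_self i⟩, rfl⟩,
      hcode _ _ (Classical.choose_spec (Set.mem_range_self (f := cd) i))⟩
  unfold cplx
  have hfin1 : (Set.range fun y : Set.range cd => Classical.choose y.2).Finite :=
    Set.finite_range _
  calc (Set.range fun i : ℕ => fun r : Fin n => a (i + r)).ncard
      ≤ ((fun i : ℕ => fun r : Fin n => a (i + r)) ''
        (Set.range fun y : Set.range cd => Classical.choose y.2)).ncard :=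
        Set.ncard_le_ncard hsub (hfin1.image _)
    _ ≤ (Set.range fun y : Set.range cd => Classical.choose y.2).ncard :=
        Set.ncard_image_le hfin1
    _ ≤ Nat.card (Set.range cd) := by
        rw [← Set.image_univ, ← Set.ncard_univ]
        exact Set.ncard_image_le Set.finite_univ
    _ ≤ Nat.card (Fin (k ^ p) × ((F → Fin (c + 1)) × (F → Fin (c + 1)))) :=
        Nat.card_le_card_of_injective _ Subtype.val_injective
    _ = k ^ p * (Q * Q) := by
        rw [Nat.card_eq_fintype_card, Fintype.card_prod, Fintype.card_prod, Fintype.card_fin, hQ]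
    _ ≤ (k * n) * (Q * Q) := Nat.mul_le_mul_right _ hp2
    _ = k * (Q * Q) * n := by ring

end MPacdTB
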