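import Pool.Agent.Lib.MP_acd137_lc.TB.KL3
import Pool.Agent.Lib.MP_acd137_lc.TB.Dig

/-!
# MP_acd137_lc / TB / Final: the theorem (helper90)
-/

set_option autoImplicit false

namespace MPacdTB

open Filter Topology

variable {b : ℕ} {e : ℕ → ℤ} {m : ℕ → ℕ} {D : ℕ} {lam : ℝ}

/-- the key lemma for `x = (u + θ) / g` -/
theorem core {c : ℕ} (hc : 2 ≤ c) (L : Lac b e m D lam) (p : ℕ) (hp : p.Prime) (hpb : p ∣ b)
    (hpc : ¬ p ∣ c) (x : ℝ) (g : ℕ) (u : ℤ) (hx : (g : ℝ) * x = u + theta b e m)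
    (i j s : ℕ → ℕ) (ε κ : ℝ) (hε : 0 < ε) (hκ : 0 < κ)
    (hj : Tendsto j atTop atTop) (hij : ∀ᶠ l in atTop, i l < j l) (B : ℕ → ℤ)
    (hB : ∀ᶠ l in atTop, |((c : ℝ) ^ (j l) - (c : ℝ) ^ (i l)) * x - B l| ≤
      Real.exp (-(ε * j l)))
    (hs1 : ∀ᶠ l in atTop, κ * j l ≤ m (s l))
    (hs2 : ∀ᶠ l in atTop, m (s l) * Real.log b ≤ Real.log c * j l) : False := by
  have hle : ((hyperfilter ℕ : Ultrafilter ℕ) : Filter ℕ) ≤ atTop := by
    rw [← Nat.cofinite_eq_atTop]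
    exact hyperfilter_le_cofinite
  refine kl hc L p hp hpb hpc (hyperfilter ℕ) i j s ε κ g hε hκ (Nat.cast_nonneg _)
    (hj.mono_left hle) (hle hij) (fun l => g * B l - ((c : ℤ) ^ (j l) - (c : ℤ) ^ (i l)) * u)
    ?_ (hle hs1) (hle hs2)
  apply hle
  filter_upwards [hB] with l hl
  have h1 : ((c : ℝ) ^ (j l) - (c : ℝ) ^ (i l)) * theta b e m -
      ((g * B l - ((c : ℤ) ^ (j l) - (c : ℤ) ^ (i l)) * u : ℤ) : ℝ) =
      g * (((c : ℝ) ^ (j l) - (c : ℝ) ^ (i l)) * x - B l) := by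
    have h2 : theta b e m = g * x - u := by linarith
    rw [h2]
    push_cast
    ring
  rw [h1, abs_mul, Nat.abs_cast]
  exact mul_le_mul_of_nonneg_left hl (Nat.cast_nonneg _)

theorem blk {c : ℕ} (hc : 2 ≤ c) (C n j : ℕ) (y : ℝ) (hj : j ≤ (C + 1) * n)
    (hy : |y| * (c : ℝ) ^ n ≤ 1) :
    |y| ≤ Real.exp (-((Real.log c / (C + 1)) * j)) := by
  have hcR : (2 : ℝ) ≤ c := by exact_mod_cast hc
  have hγ : 0 < Real.log c := Real.log_pos (by linarith)
  have h1 : (c : ℝ) ^ n = Real.exp (Real.log c * n) := by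
    rw [Real.exp_mul, Real.exp_log (by linarith), Real.rpow_natCast]
  have h2 : |y| ≤ Real.exp (-(Real.log c * n)) := by
    rw [Real.exp_neg, ← one_div, le_div_iff₀ (Real.exp_pos _), ← h1]
    exact hy
  refine h2.trans (Real.exp_le_exp.2 ?_)
  have h3 : (j : ℝ) ≤ (C + 1) * n := by exact_mod_cast hj
  have h4 : Real.log c / (C + 1) * j ≤ Real.log c / (C + 1) * ((C + 1) * n) :=
    mul_le_mul_of_nonneg_left h3 (by positivity)
  have h5 : Real.log c / ((C : ℝ) + 1) * ((C + 1) * n) = Real.log c * n := by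
    have : (C : ℝ) + 1 ≠ 0 := by positivity
    field_simp
  linarith

/-- (1): the block complexity is not linear -/
theorem part1 {c : ℕ} (hc : 2 ≤ c) (L : Lac b e m D lam) (p : ℕ) (hp : p.Prime) (hpb : p ∣ b)
    (hpc : ¬ p ∣ c) (x : ℝ) (g : ℕ) (u : ℤ) (hx : (g : ℝ) * x = u + theta b e m) (C N : ℕ) :
    ∃ n, N ≤ n ∧ C * n < cplx (dig c x) n := by
  classical
  by_contra hcon
  push Not at hcon
  have hcR : (2 : ℝ) ≤ c := by exact_mod_cast hc
  have hγ : 0 < Real.log c := Real.log_pos (by linarith)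
  have hβ := L.logb
  obtain ⟨n, hn⟩ : ∃ n : ℕ → ℕ, n = fun l => ⌈m l * Real.log b / Real.log c⌉₊ := ⟨_, rfl⟩
  have hn1 : ∀ l, (m l : ℝ) * Real.log b ≤ Real.log c * n l := by
    intro l
    have := Nat.le_ceil (m l * Real.log b / Real.log c)
    rw [div_le_iff₀ hγ] at this
    rw [hn]
    simp only
    linarith
  have hn2 : ∀ l, (n l : ℝ) < m l * Real.log b / Real.log c + 1 := by
    intro l
    rw [hn]
    exact Nat.ceil_lt_add_one (by positivity)
  have hmt : Tendsto (fun l => (m l : ℝ)) atTop atTop :=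
    tendsto_natCast_atTop_atTop.comp L.mono.tendsto_atTop
  have hnt : Tendsto n atTop atTop := by
    have h1 : Tendsto (fun l => (n l : ℝ)) atTop atTop := by
      refine tendsto_atTop_mono (fun l => ?_) (hmt.atTop_mul_const
        (show 0 < Real.log b / Real.log c by positivity))
      have := hn1 l
      rw [mul_div_assoc', div_le_iff₀ hγ]
      linarith
    exact tendsto_natCast_atTop_iff.1 h1
  have hex : ∀ l, ∃ q : ℕ × ℕ × ℤ, N ≤ n l → 1 ≤ n l → n l ≤ q.1 ∧ q.1 < q.2.1 ∧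
      q.2.1 ≤ (C + 1) * n l ∧
      |((c : ℝ) ^ q.2.1 - (c : ℝ) ^ q.1) * x - q.2.2| * (c : ℝ) ^ (n l) ≤ 1 := by
    intro l
    by_cases h : N ≤ n l
    · obtain ⟨i, j, h1, h2, h3, B, h4⟩ := two_blocks c hc x (n l) (n l) (C * n l + 1)
        (Nat.lt_succ_of_le (hcon _ h))
      refine ⟨(i, j, B), fun _ _ => ⟨h1, h2, ?_, h4⟩⟩
      simp only
      rw [Nat.add_mul]
      omega
    · exact ⟨(0, 0, 0), fun h' => absurd h' h⟩
  choose q hq using hex
  have hgood : ∀ᶠ l in atTop, N ≤ n l ∧ 1 ≤ n l :=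
    (hnt.eventually_ge_atTop N).and (hnt.eventually_ge_atTop 1)
  refine core hc L p hp hpb hpc x g u hx (fun l => (q l).1) (fun l => (q l).2.1) (fun l => l)
    (Real.log c / (C + 1)) (1 / ((C + 1) * (Real.log b / Real.log c + 1))) (by positivity)
    (by positivity) ?_ ?_ (fun l => (q l).2.2) ?_ ?_ ?_
  · refine tendsto_atTop_mono' atTop ?_ hnt
    filter_upwards [hgood] with l hl
    obtain ⟨h1, h2, _, _⟩ := hq l hl.1 hl.2
    omega
  · filter_upwards [hgood] with l hl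
    exact (hq l hl.1 hl.2).2.1
  · filter_upwards [hgood] with l hl
    obtain ⟨_, _, h3, h4⟩ := hq l hl.1 hl.2
    exact blk hc C (n l) _ _ h3 h4
  · filter_upwards [hgood, hmt.eventually_ge_atTop 1] with l hl hml
    obtain ⟨_, _, h3, _⟩ := hq l hl.1 hl.2
    have h5 : ((q l).2.1 : ℝ) ≤ (C + 1) * n l := by exact_mod_cast h3
    rw [one_div, inv_mul_eq_div, div_le_iff₀ (by positivity)]
    have h6 : (n l : ℝ) ≤ m l * (Real.log b / Real.log c + 1) := by
      have := hn2 l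
      rw [mul_add, mul_one, ← mul_div_assoc]
      linarith
    calc ((q l).2.1 : ℝ) ≤ (C + 1) * n l := h5
      _ ≤ (C + 1) * (m l * (Real.log b / Real.log c + 1)) := by gcongr
      _ = _ := by ring
  · filter_upwards [hgood] with l hl
    obtain ⟨h1, h2, _, _⟩ := hq l hl.1 hl.2
    have h3 : (n l : ℝ) ≤ (q l).2.1 := by exact_mod_cast (by omega : n l ≤ (q l).2.1)
    exact (hn1 l).trans (mul_le_mul_of_nonneg_left h3 hγ.le)

/-- (3): bounded ratios -/
theorem part3 {c : ℕ} (hc : 2 ≤ c) (L : Lac b e m D lam) (p : ℕ) (hp : p.Prime) (hpb : p ∣ b)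
    (hpc : ¬ p ∣ c) (x : ℝ) (g : ℕ) (u : ℤ) (hx : (g : ℝ) * x = u + theta b e m)
    (Lam : ℝ) (hLam : ∀ᶠ k in atTop, (m (k + 1) : ℝ) ≤ Lam * m k)
    (i j : ℕ → ℕ) (ε : ℝ) (hε : 0 < ε) (hj : Tendsto j atTop atTop)
    (hij : ∀ᶠ l in atTop, i l < j l) (B : ℕ → ℤ)
    (hB : ∀ᶠ l in atTop, |((c : ℝ) ^ (j l) - (c : ℝ) ^ (i l)) * x - B l| ≤
      Real.exp (-(ε * j l))) : False := by
  classical
  have hcR : (2 : ℝ) ≤ c := by exact_mod_cast hc
  have hγ : 0 < Real.log c := Real.log_pos (by linarith)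
  have hβ := L.logb
  have hjr : Tendsto (fun l => (j l : ℝ)) atTop atTop := tendsto_natCast_atTop_atTop.comp hj
  obtain ⟨k₀, hk₀⟩ := eventually_atTop.1 hLam
  obtain ⟨Lm, hLm⟩ : ∃ Lm : ℝ, Lm = max Lam 1 := ⟨_, rfl⟩
  have hLm0 : 0 < Lm := by rw [hLm]; exact lt_max_of_lt_right one_pos
  have hex : ∀ l, ∃ K, (m k₀ * Real.log b < Real.log c * j l) → k₀ ≤ K ∧
      m K * Real.log b < Real.log c * j l ∧ Real.log c * j l ≤ m (K + 1) * Real.log b := by
    intro l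
    by_cases h : m k₀ * Real.log b < Real.log c * j l
    · obtain ⟨K, h1, h2, h3⟩ := exK L.mono (Real.log b) (Real.log c * j l) hβ k₀ h
      exact ⟨K, fun _ => ⟨h1, h2, h3⟩⟩
    · exact ⟨0, fun h' => absurd h' h⟩
  choose K hK using hex
  have hgood : ∀ᶠ l in atTop, m k₀ * Real.log b < Real.log c * j l := by
    filter_upwards [hjr.eventually_gt_atTop (m k₀ * Real.log b / Real.log c)] with l hl
    rw [div_lt_iff₀ hγ] at hl
    linarith
  refine core hc L p hp hpb hpc x g u hx i j K ε (Real.log c / (Lm * Real.log b)) hε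
    (by positivity) hj hij B hB ?_ ?_
  · filter_upwards [hgood] with l hl
    obtain ⟨h1, h2, h3⟩ := hK l hl
    have h4 : (m (K l + 1) : ℝ) ≤ Lm * m (K l) := by
      refine (hk₀ (K l) h1).trans ?_
      rw [hLm]
      exact mul_le_mul_of_nonneg_right (le_max_left _ _) (Nat.cast_nonneg _)
    rw [div_mul_eq_mul_div, div_le_iff₀ (by positivity)]
    calc Real.log c * j l ≤ m (K l + 1) * Real.log b := h3
      _ ≤ (Lm * m (K l)) * Real.log b := by gcongr
      _ = _ := by ring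
  · filter_upwards [hgood] with l hl
    exact (hK l hl).2.1.le

/-- (3a): the block complexity is superlinear -/
theorem part3a {c : ℕ} (hc : 2 ≤ c) (L : Lac b e m D lam) (p : ℕ) (hp : p.Prime) (hpb : p ∣ b)
    (hpc : ¬ p ∣ c) (x : ℝ) (g : ℕ) (u : ℤ) (hx : (g : ℝ) * x = u + theta b e m)
    (Lam : ℝ) (hLam : ∀ᶠ k in atTop, (m (k + 1) : ℝ) ≤ Lam * m k) (C : ℕ) :
    ∀ᶠ n in atTop, C * n < cplx (dig c x) n := by
  classical
  by_contra hcon
  rw [Filter.not_eventually, Filter.frequently_atTop] at hcon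
  have hex : ∀ l : ℕ, ∃ q : ℕ × ℕ × ℤ × ℕ, l ≤ q.2.2.2 ∧ q.2.2.2 ≤ q.1 ∧ q.1 < q.2.1 ∧
      q.2.1 ≤ (C + 1) * q.2.2.2 ∧
      |((c : ℝ) ^ q.2.1 - (c : ℝ) ^ q.1) * x - q.2.2.1| * (c : ℝ) ^ q.2.2.2 ≤ 1 := by
    intro l
    obtain ⟨n, hn1, hn2⟩ := hcon l
    rw [not_lt] at hn2
    obtain ⟨i, j, h1, h2, h3, B, h4⟩ := two_blocks c hc x n n (C * n + 1)
      (Nat.lt_succ_of_le hn2)
    refine ⟨(i, j, B, n), hn1, h1, h2, ?_, h4⟩
    simp only
    rw [Nat.add_mul]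
    omega
  choose q hq using hex
  have hcR : (2 : ℝ) ≤ c := by exact_mod_cast hc
  have hγ : 0 < Real.log c := Real.log_pos (by linarith)
  refine part3 hc L p hp hpb hpc x g u hx Lam hLam (fun l => (q l).1) (fun l => (q l).2.1)
    (Real.log c / (C + 1)) (by positivity) ?_ ?_ (fun l => (q l).2.2.1) ?_
  · refine tendsto_atTop_mono (fun l => ?_) tendsto_id
    obtain ⟨h1, h2, h3, _, _⟩ := hq l
    simp only [id]
    omega
  · filter_upwards with l
    exact (hq l).2.2.1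
  · filter_upwards with l
    obtain ⟨_, _, _, h4, h5⟩ := hq l
    exact blk hc C _ _ _ h4 h5

/-- (3b): finitely many good approximations -/
theorem part3b {c : ℕ} (hc : 2 ≤ c) (L : Lac b e m D lam) (p : ℕ) (hp : p.Prime) (hpb : p ∣ b)
    (hpc : ¬ p ∣ c) (x : ℝ) (g : ℕ) (u : ℤ) (hx : (g : ℝ) * x = u + theta b e m)
    (Lam : ℝ) (hLam : ∀ᶠ k in atTop, (m (k + 1) : ℝ) ≤ Lam * m k) (ε : ℝ) (hε : 0 < ε) :
    {q : ℕ × ℕ | q.1 < q.2 ∧ ∃ B : ℤ, |((c : ℝ) ^ q.2 - (c : ℝ) ^ q.1) * x - B| ≤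
      (c : ℝ) ^ (-(ε * q.2))}.Finite := by
  classical
  by_contra hcon
  have hcR : (2 : ℝ) ≤ c := by exact_mod_cast hc
  have hγ : 0 < Real.log c := Real.log_pos (by linarith)
  have hex : ∀ l : ℕ, ∃ q : ℕ × ℕ × ℤ, l ≤ q.2.1 ∧ q.1 < q.2.1 ∧
      |((c : ℝ) ^ q.2.1 - (c : ℝ) ^ q.1) * x - q.2.2| ≤ (c : ℝ) ^ (-(ε * q.2.1)) := by
    intro l
    by_contra h
    apply hcon
    refine Set.Finite.subset ((Set.finite_Iio l).prod (Set.finite_Iio l)) ?_
    rintro ⟨i, j⟩ ⟨h1, B, h2⟩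
    by_contra h3
    apply h
    refine ⟨(i, j, B), ?_, h1, h2⟩
    simp only [Set.mem_prod, Set.mem_Iio, not_and, not_lt] at h3
    simp only at h1 ⊢
    by_contra h4
    rw [not_le] at h4
    have := h3 (by omega)
    omega
  choose q hq using hex
  refine part3 hc L p hp hpb hpc x g u hx Lam hLam (fun l => (q l).1) (fun l => (q l).2.1)
    (ε * Real.log c) (by positivity) ?_ ?_ (fun l => (q l).2.2) ?_
  · exact tendsto_atTop_mono (fun l => (hq l).1) tendsto_id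
  · filter_upwards with l
    exact (hq l).2.1
  · filter_upwards with l
    refine (hq l).2.2.trans (le_of_eq ?_)
    rw [Real.rpow_def_of_pos (by linarith)]
    congr 1
    ring

end MPacdTB
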