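import Pool.Agent.Lib.MP_acd137_lc.TB.Basic
import Pool.Agent.Lib.MP_acd137_lc.TB.Lac

/-!
# MP_acd137_lc / TB / KL1: choice of the truncation (helper90)
-/

set_option autoImplicit false

namespace MPacdTB

open Filter Topology Pool.Agent.SubQ

variable {b : ℕ} {e : ℕ → ℤ} {m : ℕ → ℕ} {D : ℕ} {lam : ℝ}

theorem Lac.logb (L : Lac b e m D lam) : 0 < Real.log b :=
  Real.log_pos (by have := L.bR; linarith)

theorem kl1 (L : Lac b e m D lam) (γ ε κ : ℝ) (hγ : 0 < γ) (hε : 0 < ε) (hκ : 0 < κ)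
    (𝒰 : Ultrafilter ℕ) (j s : ℕ → ℕ) (hj : Tendsto j 𝒰 atTop)
    (hs1 : ∀ᶠ l in (𝒰 : Filter ℕ), κ * j l ≤ m (s l))
    (hs2 : ∀ᶠ l in (𝒰 : Filter ℕ), m (s l) * Real.log b ≤ γ * j l) :
    ∃ (K : ℕ → ℕ) (T ts : ℕ) (E : ℕ → ℤ) (ρ₀ : ℝ), 0 ≤ ρ₀ ∧ 2 * ρ₀ < ε ∧ ts < T ∧
      (∀ N, ∀ᶠ l in (𝒰 : Filter ℕ), N ≤ s l) ∧
      (∀ᶠ l in (𝒰 : Filter ℕ), K l = s l + ts) ∧
      (∀ᶠ l in (𝒰 : Filter ℕ), m (K l) * Real.log b < (γ + ε) * j l) ∧
      (∀ᶠ l in (𝒰 : Filter ℕ), (γ + ε) * j l ≤ m (K l + 1) * Real.log b) ∧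
      (∀ t, ∀ᶠ l in (𝒰 : Filter ℕ), e (K l - t) = E t) ∧
      ∀ᶠ l in (𝒰 : Filter ℕ), m (K l - T) * Real.log b ≤ ρ₀ * j l := by
  have hβ := L.logb
  have hlam := L.hlam
  have hjr : Tendsto (fun l => (j l : ℝ)) 𝒰 atTop := tendsto_natCast_atTop_atTop.comp hj
  have hs : ∀ N, ∀ᶠ l in (𝒰 : Filter ℕ), N ≤ s l := by
    intro N
    filter_upwards [hs1, hjr.eventually_gt_atTop (m N / κ)] with l h1 h2
    by_contra h3
    rw [not_le] at h3
    have h4 : m (s l) ≤ m N := L.mono.monotone h3.le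
    have h5 : (m (s l) : ℝ) ≤ m N := by exact_mod_cast h4
    rw [div_lt_iff₀ hκ] at h2
    linarith
  have hex : ∀ᶠ l in (𝒰 : Filter ℕ), ∃ K, s l ≤ K ∧ m K * Real.log b < (γ + ε) * j l ∧
      (γ + ε) * j l ≤ m (K + 1) * Real.log b := by
    filter_upwards [hs2, hjr.eventually_ge_atTop 1] with l h1 h2
    apply exK L.mono _ _ hβ
    nlinarith
  obtain ⟨K, hK⟩ := hex.choice
  obtain ⟨T, hT⟩ := exists_pow_lt_of_lt_one
    (show 0 < min (κ * Real.log b / (γ + ε)) (ε / (2 * (γ + ε))) by positivity)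
    (show 1 / lam < 1 by rw [div_lt_one (by linarith)]; exact hlam)
  have hA : 0 < γ + ε := by linarith
  have hT1 : (1 / lam) ^ T * (γ + ε) < κ * Real.log b := by
    have := lt_of_lt_of_le hT (min_le_left _ _)
    rwa [lt_div_iff₀ hA] at this
  have hT2 : 2 * ((γ + ε) * (1 / lam) ^ T) < ε := by
    have := lt_of_lt_of_le hT (min_le_right _ _)
    rw [lt_div_iff₀ (by positivity)] at this
    linarith
  obtain ⟨i₀, hi₀⟩ := L.growth
  have hKT : ∀ᶠ l in (𝒰 : Filter ℕ),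
      m (K l - T) * Real.log b ≤ (γ + ε) * (1 / lam) ^ T * j l := by
    filter_upwards [hK, hs (i₀ + T)] with l h1 h2
    have h3 := hi₀ (K l - T) (by omega) T
    rw [show K l - T + T = K l by omega] at h3
    have h4 : (m (K l - T) : ℝ) ≤ (1 / lam) ^ T * m (K l) := by
      rw [one_div, inv_pow, inv_mul_eq_div, le_div_iff₀ (by positivity)]
      linarith
    have h5 : 0 ≤ (1 / lam) ^ T := by positivity
    calc (m (K l - T) : ℝ) * Real.log b ≤ ((1 / lam) ^ T * m (K l)) * Real.log b := by gcongr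
      _ = (1 / lam) ^ T * (m (K l) * Real.log b) := by ring
      _ ≤ (1 / lam) ^ T * ((γ + ε) * j l) := by
          exact mul_le_mul_of_nonneg_left h1.2.1.le h5
      _ = _ := by ring
  have hlt : ∀ᶠ l in (𝒰 : Filter ℕ), K l - s l < T := by
    filter_upwards [hK, hKT, hs1, hjr.eventually_ge_atTop 1, hs (i₀ + T)] with l h1 h2 h3 h4 h5
    by_contra h6
    rw [not_lt] at h6
    have h7 : m (s l) ≤ m (K l - T) := L.mono.monotone (by omega)
    have h8 : (m (s l) : ℝ) ≤ m (K l - T) := by exact_mod_cast h7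
    have h9 : κ * j l * Real.log b ≤ (γ + ε) * (1 / lam) ^ T * j l :=
      (mul_le_mul_of_nonneg_right (h3.trans h8) hβ.le).trans h2
    have h10 : (1 / lam) ^ T * (γ + ε) * j l < κ * Real.log b * j l :=
      mul_lt_mul_of_pos_right hT1 (by linarith)
    nlinarith
  obtain ⟨ts, hts, hts'⟩ := constNat 𝒰 (fun l => K l - s l) T hlt
  have hE : ∀ t, ∃ a, ∀ᶠ l in (𝒰 : Filter ℕ), e (K l - t) = a := by
    intro t
    apply constInt 𝒰 _ D
    filter_upwards with l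
    exact L.le _
  choose E hE using hE
  refine ⟨K, T, ts, E, (γ + ε) * (1 / lam) ^ T, by positivity, hT2, hts, hs, ?_, ?_, ?_, hE, hKT⟩
  · filter_upwards [hts', hK] with l h1 h2
    omega
  · exact hK.mono fun l h => h.2.1
  · exact hK.mono fun l h => h.2.2

end MPacdTB
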