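import Pool.Agent.Lib.MP_acd137_lc.TB.KL1

/-!
# MP_acd137_lc / TB / KL2: the relation (helper90)
-/

set_option autoImplicit false

namespace MPacdTB

open Filter Topology Pool.Agent.SubQ

variable {b : ℕ} {e : ℕ → ℤ} {m : ℕ → ℕ} {D : ℕ} {lam : ℝ}

/-- numerators -/
def num (b : ℕ) (e : ℕ → ℤ) (m : ℕ → ℕ) (K T t : ℕ) : ℤ := if t < T then 1 else Pn b e m (K - T)

/-- coordinates -/
def Xc (b c : ℕ) (e : ℕ → ℤ) (m : ℕ → ℕ) (K T i j : ℕ) (x : Fin (T + 1) × Bool) : ℤ :=
  num b e m K T x.1 * ((b : ℤ) ^ (m K - m (K - x.1)) * (c : ℤ) ^ (if x.2 then j else i))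

/-- coefficients -/
def ac (E : ℕ → ℤ) (T : ℕ) (x : Fin (T + 1) × Bool) : ℤ :=
  (if x.2 then 1 else -1) * (if (x.1 : ℕ) < T then E x.1 else 1)

theorem Xsum (hm : StrictMono m) (c : ℕ) (E : ℕ → ℤ) (K T i j : ℕ) (hT : T ≤ K)
    (hE : ∀ t, t < T → e (K - t) = E t) :
    ∑ x, ac E T x * Xc b c e m K T i j x = ((c : ℤ) ^ j - (c : ℤ) ^ i) * Pn b e m K := by
  rw [Fintype.sum_prod_type]
  have h1 : ∀ x : Fin (T + 1), ∑ f : Bool, ac E T (x, f) * Xc b c e m K T i j (x, f) =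
      (fun t : ℕ => ((c : ℤ) ^ j - (c : ℤ) ^ i) * ((if t < T then E t else 1) *
        (num b e m K T t * (b : ℤ) ^ (m K - m (K - t))))) x := by
    intro x
    simp only [Fintype.sum_bool, ac, Xc, if_true, Bool.false_eq_true, if_false]
    ring
  rw [Finset.sum_congr rfl fun x _ => h1 x, Fin.sum_univ_eq_sum_range
    (fun t : ℕ => ((c : ℤ) ^ j - (c : ℤ) ^ i) * ((if t < T then E t else 1) *
        (num b e m K T t * (b : ℤ) ^ (m K - m (K - t))))) (T + 1), ← Finset.mul_sum,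
    Finset.sum_range_succ]
  congr 1
  rw [Pn_split hm K T hT]
  congr 1
  · refine Finset.sum_congr rfl fun t ht => ?_
    rw [Finset.mem_range] at ht
    rw [if_pos ht, hE t ht]
    simp [num, ht]
  · simp [num]

theorem num_le (L : Lac b e m D lam) (K T t : ℕ) (ht : t ≤ T) :
    |(num b e m K T t : ℝ)| ≤ 2 * D * (b : ℝ) ^ (m (K - t)) := by
  unfold num
  split_ifs with h
  · have h1 : (1 : ℝ) ≤ D := by exact_mod_cast L.D_pos
    have h2 : (1 : ℝ) ≤ (b : ℝ) ^ (m (K - t)) := one_le_pow₀ (by have := L.bR; linarith)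
    push_cast
    rw [abs_one]
    nlinarith
  · have : t = T := by omega
    rw [this]
    exact L.Pn_le (K - T)

theorem Xc_le (L : Lac b e m D lam) (c : ℕ) (hc : 2 ≤ c) (K T i j : ℕ) (hij : i ≤ j)
    (x : Fin (T + 1) × Bool) :
    |(Xc b c e m K T i j x : ℝ)| ≤ 2 * D * ((b : ℝ) ^ (m K) * (c : ℝ) ^ j) := by
  have hb := L.bR
  have hc' : (1 : ℝ) ≤ c := by exact_mod_cast (by omega : 1 ≤ c)
  have h1 := num_le L K T x.1 (by have := x.1.2; omega)
  have h2 : m (K - x.1) ≤ m K := L.mono.monotone (by omega)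
  have h3 : (c : ℝ) ^ (if x.2 then j else i) ≤ (c : ℝ) ^ j := by
    apply pow_le_pow_right₀ hc'
    split_ifs
    · exact le_rfl
    · exact hij
  unfold Xc
  push_cast
  rw [abs_mul, abs_of_nonneg (by positivity :
    (0 : ℝ) ≤ (b : ℝ) ^ (m K - m (K - x.1)) * (c : ℝ) ^ (if x.2 then j else i))]
  calc |(num b e m K T x.1 : ℝ)| *
        ((b : ℝ) ^ (m K - m (K - x.1)) * (c : ℝ) ^ (if x.2 then j else i))
      ≤ (2 * D * (b : ℝ) ^ (m (K - x.1))) *
        ((b : ℝ) ^ (m K - m (K - x.1)) * (c : ℝ) ^ j) := by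
        gcongr
    _ = 2 * D * (((b : ℝ) ^ (m (K - x.1)) * (b : ℝ) ^ (m K - m (K - x.1))) * (c : ℝ) ^ j) := by
        ring
    _ = _ := by rw [← pow_add, Nat.add_sub_cancel' h2]

theorem kl2 {c : ℕ} (hc : 2 ≤ c) (L : Lac b e m D lam) (𝒰 : Ultrafilter ℕ)
    (i j s K : ℕ → ℕ) (T ts : ℕ) (E : ℕ → ℤ) (ρ₀ ε G : ℝ) (hρ0 : 0 ≤ ρ₀)
    (hρε : 2 * ρ₀ < ε) (hts : ts < T) (hj : Tendsto j 𝒰 atTop)
    (hij : ∀ᶠ l in (𝒰 : Filter ℕ), i l < j l)
    (hs : ∀ N, ∀ᶠ l in (𝒰 : Filter ℕ), N ≤ s l)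
    (hK : ∀ᶠ l in (𝒰 : Filter ℕ), K l = s l + ts)
    (hKu : ∀ᶠ l in (𝒰 : Filter ℕ), m (K l) * Real.log b < (Real.log c + ε) * j l)
    (hKl : ∀ᶠ l in (𝒰 : Filter ℕ), (Real.log c + ε) * j l ≤ m (K l + 1) * Real.log b)
    (hE : ∀ t, ∀ᶠ l in (𝒰 : Filter ℕ), e (K l - t) = E t)
    (hKT : ∀ᶠ l in (𝒰 : Filter ℕ), m (K l - T) * Real.log b ≤ ρ₀ * j l)
    (hs2 : ∀ᶠ l in (𝒰 : Filter ℕ), m (s l) * Real.log b ≤ Real.log c * j l)
    (B : ℕ → ℤ) (hG : 0 ≤ G)
    (hB : ∀ᶠ l in (𝒰 : Filter ℕ), |((c : ℝ) ^ (j l) - (c : ℝ) ^ (i l)) * theta b e m - B l| ≤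
      G * Real.exp (-(ε * j l)))
    {S : ℕ} (q : Fin S → ℕ) (hq : Pls q)
    (hqb : ∀ r : ℕ, r.Prime → r ∣ b → ∃ v, q v = r)
    (hqc : ∀ r : ℕ, r.Prime → r ∣ c → ∃ v, q v = r) :
    ∃ z : Fin (T + 1) × Bool → ℚ,
      (∀ x, (x.1 : ℕ) = ts → x.2 = true → z x = E ts) ∧
      ((∃ J₀, ∀ᶠ l in (𝒰 : Filter ℕ), j l - i l = J₀) →
        ∀ x, (x.1 : ℕ) = ts → z x = ac E T x) ∧
      ∀ᶠ l in (𝒰 : Filter ℕ), ((B l * (b : ℤ) ^ (m (K l)) : ℤ) : ℚ) =
        ∑ x, z x * Xc b c e m (K l) T (i l) (j l) x := by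
  classical
  have hε : 0 < ε := by linarith
  obtain ⟨β, hβdef⟩ : ∃ β : ℝ, β = Real.log b := ⟨_, rfl⟩
  obtain ⟨γ, hγdef⟩ : ∃ γ : ℝ, γ = Real.log c := ⟨_, rfl⟩
  have hβ : 0 < β := by rw [hβdef]; exact L.logb
  have hcR : (2 : ℝ) ≤ c := by exact_mod_cast hc
  have hbR := L.bR
  have hγ : 0 < γ := by rw [hγdef]; exact Real.log_pos (by linarith)
  rw [← hβdef] at hKu hKl hKT hs2
  rw [← hγdef] at hKu hKl hs2
  have hjr : Tendsto (fun l => (j l : ℝ)) 𝒰 atTop := tendsto_natCast_atTop_atTop.comp hj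
  have hj1 : ∀ᶠ l in (𝒰 : Filter ℕ), (1 : ℝ) ≤ j l := hjr.eventually_ge_atTop 1
  have hD1 : (1 : ℝ) ≤ D := by exact_mod_cast L.D_pos
  have hb0 : b ≠ 0 := by have := L.hb; omega
  have hc0 : c ≠ 0 := by omega
  have hbz : (b : ℤ) ≠ 0 := by exact_mod_cast hb0
  have hcz : (c : ℤ) ≠ 0 := by exact_mod_cast hc0
  have expb : ∀ k : ℕ, (b : ℝ) ^ k = Real.exp (k * β) := by
    intro k
    rw [hβdef, mul_comm, Real.exp_mul, Real.exp_log (by linarith), Real.rpow_natCast]
  have expc : ∀ k : ℕ, (c : ℝ) ^ k = Real.exp (k * γ) := by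
    intro k
    rw [hγdef, mul_comm, Real.exp_mul, Real.exp_log (by linarith), Real.rpow_natCast]
  -- the limit of `m K / j`
  obtain ⟨ν, hν⟩ := limEx.1 𝒰 (fun l => (m (K l) : ℝ) / j l) ((γ + ε) / β) (by
    filter_upwards [hKu, hj1] with l h1 h2
    rw [abs_of_nonneg (by positivity), div_le_div_iff₀ (by linarith) hβ]
    exact h1.le)
  -- sizes
  obtain ⟨C1, hC1⟩ : ∃ C1 : ℝ, C1 = 2 * D + |theta b e m| + G + 1 := ⟨_, rfl⟩
  have hC1pos : 1 ≤ C1 := by
    rw [hC1]
    have := abs_nonneg (theta b e m)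
    linarith
  have hlogC1 : 0 ≤ Real.log C1 := Real.log_nonneg hC1pos
  obtain ⟨B0, hB0⟩ : ∃ B0 : ℝ, B0 = Real.log C1 + (γ + ε) + γ := ⟨_, rfl⟩
  have hsz : ∀ᶠ l in (𝒰 : Filter ℕ),
      C1 * ((b : ℝ) ^ (m (K l)) * (c : ℝ) ^ (j l)) ≤ Real.exp (B0 * j l) := by
    filter_upwards [hKu, hj1] with l h1 h2
    rw [expb, expc, ← Real.exp_add, ← Real.exp_log (by linarith : 0 < C1), ← Real.exp_add]
    apply Real.exp_le_exp.2
    rw [hB0]
    have h3 : Real.log C1 * 1 ≤ Real.log C1 * j l := mul_le_mul_of_nonneg_left h2 hlogC1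
    linarith
  have hXB : ∀ x, ∀ᶠ l in (𝒰 : Filter ℕ),
      |(Xc b c e m (K l) T (i l) (j l) x : ℝ)| ≤ Real.exp (B0 * j l) := by
    intro x
    filter_upwards [hsz, hij] with l h1 h2
    refine (Xc_le L c hc (K l) T (i l) (j l) h2.le x).trans (le_trans ?_ h1)
    refine mul_le_mul_of_nonneg_right ?_ (by positivity)
    rw [hC1]
    have := abs_nonneg (theta b e m)
    linarith
  have hYB : ∀ᶠ l in (𝒰 : Filter ℕ),
      |((B l * (b : ℤ) ^ (m (K l)) : ℤ) : ℝ)| ≤ Real.exp (B0 * j l) := by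
    filter_upwards [hsz, hij, hB] with l h1 h2 h3
    refine le_trans ?_ h1
    push_cast
    rw [abs_mul, abs_of_nonneg (by positivity : (0 : ℝ) ≤ (b : ℝ) ^ (m (K l)))]
    have h4 : (c : ℝ) ^ (i l) ≤ (c : ℝ) ^ (j l) := pow_le_pow_right₀ (by linarith) h2.le
    have h5 : (1 : ℝ) ≤ (c : ℝ) ^ (i l) := one_le_pow₀ (by linarith)
    have h6 : Real.exp (-(ε * j l)) ≤ 1 := by
      apply Real.exp_le_one_iff.2
      have : 0 ≤ ε * j l := by positivity
      linarith
    have h7 : |(B l : ℝ)| ≤ (c : ℝ) ^ (j l) * |theta b e m| + G := by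
      have h8 : |(B l : ℝ)| ≤ |((c : ℝ) ^ (j l) - (c : ℝ) ^ (i l)) * theta b e m| +
          |((c : ℝ) ^ (j l) - (c : ℝ) ^ (i l)) * theta b e m - B l| := by
        have := abs_sub_abs_le_abs_sub (B l : ℝ)
          (((c : ℝ) ^ (j l) - (c : ℝ) ^ (i l)) * theta b e m)
        rw [abs_sub_comm] at this
        linarith
      have h9 : |((c : ℝ) ^ (j l) - (c : ℝ) ^ (i l)) * theta b e m| ≤
          (c : ℝ) ^ (j l) * |theta b e m| := by
        rw [abs_mul, abs_of_nonneg (by linarith)]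
        exact mul_le_mul_of_nonneg_right (by linarith) (abs_nonneg _)
      have h10 : G * Real.exp (-(ε * j l)) ≤ G := by nlinarith
      linarith
    have h8 : (c : ℝ) ^ (j l) * |theta b e m| + G ≤ C1 * (c : ℝ) ^ (j l) := by
      rw [hC1]
      have := abs_nonneg (theta b e m)
      nlinarith
    calc |(B l : ℝ)| * (b : ℝ) ^ (m (K l)) ≤ (C1 * (c : ℝ) ^ (j l)) * (b : ℝ) ^ (m (K l)) :=
          mul_le_mul_of_nonneg_right (h7.trans h8) (by positivity)
      _ = _ := by ring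
  -- exponents
  have hux : ∀ (v : Option (Fin S)) (x : Fin (T + 1) × Bool), ∃ a, Tendsto
      (fun l => lv q v (Xc b c e m (K l) T (i l) (j l) x) / (j l : ℝ)) 𝒰 (𝓝 a) := by
    intro v x
    apply limEx.1 𝒰 _ B0
    filter_upwards [hXB x, hj1] with l h1 h2
    rw [abs_div, abs_of_pos (by linarith : (0 : ℝ) < j l), div_le_iff₀ (by linarith)]
    by_cases h3 : Xc b c e m (K l) T (i l) (j l) x = 0
    · rw [h3]
      have h4 : lv q v 0 = 0 := by
        cases v with
        | none => simp [lv]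
        | some v => simp [lv]
      rw [h4, abs_zero]
      have : 0 ≤ B0 := by rw [hB0]; linarith
      positivity
    · refine ((lvBasic S q hq).1 v _ h3).trans ?_
      rw [Real.log_le_iff_le_exp (abs_pos.2 (by exact_mod_cast h3))]
      exact h1
  choose u hu using hux
  -- the coordinate sums
  have hsum0 : ∀ (y k : ℕ), ∑ v, lv q v ((b : ℤ) ^ y * (c : ℤ) ^ k) = 0 := by
    intro y k
    have h1 : ∀ v, lv q v ((b : ℤ) ^ y * (c : ℤ) ^ k) =
        y * lv q v (b : ℤ) + k * lv q v (c : ℤ) := by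
      intro v
      rw [(lvBasic S q hq).2.1 v _ _ (pow_ne_zero _ hbz) (pow_ne_zero _ hcz),
        lv_pow q hq v _ hbz, lv_pow q hq v _ hcz]
    simp only [h1, Finset.sum_add_distrib, ← Finset.mul_sum]
    rw [sum_lv_nat q hq b hb0 hqb, sum_lv_nat q hq c hc0 hqc]
    ring
  obtain ⟨ρ, hρ⟩ : ∃ ρ : Fin (T + 1) × Bool → ℝ,
    ρ = fun x => if (x.1 : ℕ) < T then 0 else ρ₀ := ⟨_, rfl⟩
  have hρsum : ∑ x, ρ x = 2 * ρ₀ := by
    rw [hρ, Fintype.sum_prod_type]
    simp only [Fintype.sum_bool]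
    rw [Fin.sum_univ_eq_sum_range (fun t : ℕ => (if t < T then (0 : ℝ) else ρ₀) +
      (if t < T then 0 else ρ₀)), Finset.sum_range_succ, Finset.sum_eq_zero]
    · simp
      ring
    · intro t ht
      rw [Finset.mem_range] at ht
      simp [ht]
  have hlog2D : 0 ≤ Real.log (2 * D) := Real.log_nonneg (by linarith)
  have hρx : ∀ x, ∑ v, u v x ≤ ρ x := by
    intro x
    have h1 : Tendsto (fun l => ∑ v, lv q v (Xc b c e m (K l) T (i l) (j l) x) / (j l : ℝ)) 𝒰
        (𝓝 (∑ v, u v x)) := tendsto_finset_sum _ fun v _ => hu v x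
    have h2 : Tendsto (fun l => ρ x + Real.log (2 * D) / (j l : ℝ)) 𝒰 (𝓝 (ρ x + 0)) :=
      tendsto_const_nhds.add (hjr.const_div_atTop _)
    rw [add_zero] at h2
    refine le_of_tendsto_of_tendsto h1 h2 ?_
    filter_upwards [hKT, hj1] with l h3 h4
    have hjl : (0 : ℝ) < j l := by linarith
    rw [← Finset.sum_div, div_le_iff₀ hjl, add_mul, div_mul_cancel₀ _ hjl.ne']
    by_cases h5 : Xc b c e m (K l) T (i l) (j l) x = 0
    · rw [h5]
      have h6 : ∀ v, lv q v 0 = 0 := by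
        intro v
        cases v with
        | none => simp [lv]
        | some v => simp [lv]
      simp only [h6, Finset.sum_const_zero]
      have : 0 ≤ ρ x := by
        rw [hρ]
        simp only
        split_ifs
        · exact le_rfl
        · exact hρ0
      positivity
    · have h6 : num b e m (K l) T x.1 ≠ 0 := by
        intro h
        apply h5
        unfold Xc
        rw [h, zero_mul]
      have h7 : ∀ v, lv q v (Xc b c e m (K l) T (i l) (j l) x) =
          lv q v (num b e m (K l) T x.1) + lv q v ((b : ℤ) ^ (m (K l) - m (K l - x.1)) *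
            (c : ℤ) ^ (if x.2 then j l else i l)) := by
        intro v
        unfold Xc
        rw [(lvBasic S q hq).2.1 v _ _ h6
          (mul_ne_zero (pow_ne_zero _ hbz) (pow_ne_zero _ hcz))]
      simp only [h7, Finset.sum_add_distrib]
      rw [hsum0, add_zero]
      refine (sum_lv_le q hq _).trans ?_
      by_cases h8 : (x.1 : ℕ) < T
      · rw [hρ]
        simp only [num, h8, if_true]
        simpa using hlog2D
      · have h9 : (x.1 : ℕ) = T := by have := x.1.2; omega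
        rw [hρ]
        simp only [num, h8, if_false]
        have h10 : Pn b e m (K l - T) ≠ 0 := by
          rw [num, if_neg h8] at h6
          exact h6
        have h11 : 0 < |(Pn b e m (K l - T) : ℝ)| := abs_pos.2 (by exact_mod_cast h10)
        have h12 := Real.log_le_log h11 (L.Pn_le (K l - T))
        rw [Real.log_mul (by positivity) (by positivity), Real.log_pow, ← hβdef] at h12
        linarith
  -- the form
  have hLb : ∀ ε' : ℝ, 0 < ε' → ∀ᶠ l in (𝒰 : Filter ℕ),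
      |((∑ x, ac E T x * Xc b c e m (K l) T (i l) (j l) x -
        B l * (b : ℤ) ^ (m (K l)) : ℤ) : ℝ)| ≤ Real.exp ((ν * β - ε + ε') * j l) := by
    intro ε' hε'
    have hEall : ∀ᶠ l in (𝒰 : Filter ℕ), ∀ t, t < T → e (K l - t) = E t := by
      exact (Filter.eventually_all_finite (Set.finite_Iio T)).2 (fun t _ => hE t)
    have hνβ : Tendsto (fun l => (m (K l) : ℝ) / j l * β) 𝒰 (𝓝 (ν * β)) := hν.mul_const β
    filter_upwards [hEall, hB, hKl, hj1, hs T, hK, hij,
      hνβ.eventually_lt_const (lt_add_of_pos_right _ (half_pos hε')),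
      hjr.eventually_ge_atTop (2 * Real.log (G + 2 * D) / ε')] with l h1 h2 h3 h4 h5 h6 h7 h8 h9
    have hjl : (0 : ℝ) < j l := by linarith
    rw [Xsum L.mono c E (K l) T (i l) (j l) (by omega) h1]
    push_cast
    rw [Pn_cast L.mono L.hb]
    obtain ⟨Sg, hSg⟩ : ∃ Sg : ℝ, Sg = ∑ r ∈ Finset.range (K l + 1), (e r : ℝ) / (b : ℝ) ^ (m r) :=
      ⟨_, rfl⟩
    rw [← hSg]
    have htail := L.tail (K l + 1)
    rw [← hSg] at htail
    have h10 : ((c : ℝ) ^ (j l) - (c : ℝ) ^ (i l)) * ((b : ℝ) ^ (m (K l)) * Sg) -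
        B l * (b : ℝ) ^ (m (K l)) = (b : ℝ) ^ (m (K l)) *
        ((((c : ℝ) ^ (j l) - (c : ℝ) ^ (i l)) * theta b e m - B l) -
          ((c : ℝ) ^ (j l) - (c : ℝ) ^ (i l)) * (theta b e m - Sg)) := by ring
    rw [h10, abs_mul, abs_of_nonneg (by positivity : (0 : ℝ) ≤ (b : ℝ) ^ (m (K l)))]
    have h11 : (c : ℝ) ^ (i l) ≤ (c : ℝ) ^ (j l) := pow_le_pow_right₀ (by linarith) h7.le
    have h12 : (0 : ℝ) ≤ (c : ℝ) ^ (i l) := by positivity
    have h13 : |((c : ℝ) ^ (j l) - (c : ℝ) ^ (i l)) * (theta b e m - Sg)| ≤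
        2 * D * Real.exp (-(ε * j l)) := by
      rw [abs_mul, abs_of_nonneg (by linarith)]
      calc ((c : ℝ) ^ (j l) - (c : ℝ) ^ (i l)) * |theta b e m - Sg|
          ≤ (c : ℝ) ^ (j l) * (2 * D / (b : ℝ) ^ (m (K l + 1))) := by
            refine mul_le_mul (by linarith) htail (abs_nonneg _) (by positivity)
        _ = 2 * D * ((c : ℝ) ^ (j l) / (b : ℝ) ^ (m (K l + 1))) := by ring
        _ ≤ 2 * D * Real.exp (-(ε * j l)) := by
            refine mul_le_mul_of_nonneg_left ?_ (by positivity)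
            rw [expb, expc, ← Real.exp_sub]
            apply Real.exp_le_exp.2
            linarith
    have h14 : |(((c : ℝ) ^ (j l) - (c : ℝ) ^ (i l)) * theta b e m - B l) -
          ((c : ℝ) ^ (j l) - (c : ℝ) ^ (i l)) * (theta b e m - Sg)| ≤
        (G + 2 * D) * Real.exp (-(ε * j l)) := by
      refine (abs_sub _ _).trans ?_
      rw [add_mul]
      exact add_le_add h2 h13
    have hGD : 0 < G + 2 * D := by linarith
    calc (b : ℝ) ^ (m (K l)) * |(((c : ℝ) ^ (j l) - (c : ℝ) ^ (i l)) * theta b e m - B l) -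
          ((c : ℝ) ^ (j l) - (c : ℝ) ^ (i l)) * (theta b e m - Sg)|
        ≤ (b : ℝ) ^ (m (K l)) * ((G + 2 * D) * Real.exp (-(ε * j l))) :=
          mul_le_mul_of_nonneg_left h14 (by positivity)
      _ = Real.exp (m (K l) * β + (Real.log (G + 2 * D) + -(ε * j l))) := by
          rw [Real.exp_add, Real.exp_add, Real.exp_log hGD, ← expb]
      _ ≤ Real.exp ((ν * β - ε + ε') * j l) := by
          apply Real.exp_le_exp.2
          have h15 : (m (K l) : ℝ) * β ≤ (ν * β + ε' / 2) * j l := by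
            have h16 : (m (K l) : ℝ) * β = (m (K l) : ℝ) / j l * β * j l := by
              field_simp
            rw [h16]
            exact mul_le_mul_of_nonneg_right h8.le hjl.le
          rw [div_le_iff₀ hε'] at h9
          linarith
  -- application
  have hysum : ∑ v : Fin S, ν * lv q (some v) (b : ℤ) = -(ν * β) := by
    have h1 := sum_lv_nat q hq b hb0 hqb
    rw [Fintype.sum_option] at h1
    have h2 : lv q none (b : ℤ) = β := by
      rw [hβdef]
      simp [lv]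
    rw [h2] at h1
    rw [← Finset.mul_sum]
    have h3 : ∑ v : Fin S, lv q (some v) (b : ℤ) = -β := by linarith
    rw [h3]
    ring
  obtain ⟨z, hz1, hz2⟩ := al q hq 𝒰 j hj B0 (fun l x => Xc b c e m (K l) T (i l) (j l) x) hXB u
    (by
      intro v x ε' hε'
      filter_upwards [(hu v x).eventually_lt_const (lt_add_of_pos_right _ hε'), hj1] with l h1 h2
      rw [← div_le_iff₀ (by linarith)]
      exact h1.le)
    ρ (by
      intro x
      rw [hρ]
      simp only
      split_ifs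
      · exact le_rfl
      · exact hρ0) hρx (fun l => B l * (b : ℤ) ^ (m (K l))) hYB
    (fun v => ν * lv q (some v) (b : ℤ))
    (by
      intro v ε' hε'
      have h1 : Tendsto (fun l => (m (K l) : ℝ) / j l * lv q (some v) (b : ℤ)) 𝒰
          (𝓝 (ν * lv q (some v) (b : ℤ))) := hν.mul_const _
      filter_upwards [h1.eventually_lt_const (lt_add_of_pos_right _ hε'), hj1] with l h2 h3 h4
      have hjl : (0 : ℝ) < j l := by linarith
      have h5 : B l ≠ 0 := by
        intro h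
        apply h4
        rw [h, zero_mul]
      rw [(lvBasic S q hq).2.1 (some v) _ _ h5 (pow_ne_zero _ hbz), lv_pow q hq _ _ hbz]
      have h6 : lv q (some v) (B l) ≤ 0 := by
        have h7 : 0 ≤ Real.log (q v) := Real.log_nonneg (by exact_mod_cast (hq.prime v).one_le)
        have h8 : 0 ≤ (padicValInt (q v) (B l) : ℝ) * Real.log (q v) :=
          mul_nonneg (Nat.cast_nonneg _) h7
        change -((padicValInt (q v) (B l) : ℝ) * Real.log (q v)) ≤ 0
        linarith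
      have h9 : (m (K l) : ℝ) * lv q (some v) (b : ℤ) =
          (m (K l) : ℝ) / j l * lv q (some v) (b : ℤ) * j l := by
        field_simp
      have h10 := mul_le_mul_of_nonneg_right h2.le hjl.le
      linarith)
    (ac E T) (ν * β - ε) hLb (by rw [hρsum, hysum]; linarith)
  -- the large coordinates
  have hlarge : ∀ x : Fin (T + 1) × Bool, (x.1 : ℕ) = ts → ∀ J₀ : ℕ,
      (∀ᶠ l in (𝒰 : Filter ℕ), j l ≤ (if x.2 then j l else i l) + J₀) → z x = ac E T x := by
    intro x hx J₀ hJ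
    apply hz1
    rw [hρsum]
    have h1 : Tendsto (fun l => (m (K l) : ℝ) / j l * β - J₀ * γ / j l) 𝒰 (𝓝 (ν * β - 0)) :=
      (hν.mul_const β).sub (hjr.const_div_atTop _)
    rw [sub_zero] at h1
    have h2 : ν * β ≤ u none x := by
      refine le_of_tendsto_of_tendsto h1 (hu none x) ?_
      filter_upwards [hJ, hj1, hK, hs2] with l h3 h4 h5 h6
      have hjl : (0 : ℝ) < j l := by linarith
      have h7 : lv q none (Xc b c e m (K l) T (i l) (j l) x) =
          (m (K l) - m (s l)) * β + (if x.2 then j l else i l : ℕ) * γ := by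
        have h8 : K l - x.1 = s l := by omega
        have h9 : m (s l) ≤ m (K l) := L.mono.monotone (by omega)
        unfold Xc num
        rw [if_pos (by omega), h8, one_mul]
        change Real.log |(((b : ℤ) ^ (m (K l) - m (s l)) *
          (c : ℤ) ^ (if x.2 then j l else i l) : ℤ) : ℝ)| = _
        push_cast
        rw [abs_of_nonneg (by positivity), expb, expc, ← Real.exp_add, Real.log_exp,
          Nat.cast_sub h9]
        split_ifs <;> rfl
      rw [h7, div_mul_eq_mul_div, ← sub_div]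
      refine div_le_div_of_nonneg_right ?_ hjl.le
      have h10 : (j l : ℝ) * γ ≤ ((if x.2 then j l else i l : ℕ) + J₀) * γ := by
        refine mul_le_mul_of_nonneg_right ?_ hγ.le
        exact_mod_cast h3
      rw [add_mul] at h10
      linarith
    linarith
  refine ⟨z, ?_, ?_, hz2⟩
  · intro x hx hx2
    rw [hlarge x hx 0 (by
      filter_upwards with l
      rw [hx2]
      simp)]
    unfold ac
    rw [hx2, hx]
    simp [hts]
  · rintro ⟨J₀, hJ₀⟩ x hx
    apply hlarge x hx J₀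
    filter_upwards [hJ₀] with l hl
    split_ifs
    · omega
    · omega

end MPacdTB
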