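import Pool.Agent.Lib.MP_acd137_lc.TB.KL2

/-!
# MP_acd137_lc / TB / KL3: the contradiction (helper90)
-/

set_option autoImplicit false

namespace MPacdTB

open Filter Topology Pool.Agent.SubQ

variable {b : ℕ} {e : ℕ → ℤ} {m : ℕ → ℕ} {D : ℕ} {lam : ℝ}

/-- **Key lemma.**  `‖(c^j - c^i) θ‖` is not exponentially small if a term of the series lies in the
range between `κ j` and `j log c / log b`. -/
theorem kl {c : ℕ} (hc : 2 ≤ c) (L : Lac b e m D lam) (p : ℕ) (hp : p.Prime) (hpb : p ∣ b)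
    (hpc : ¬ p ∣ c) (𝒰 : Ultrafilter ℕ) (i j s : ℕ → ℕ) (ε κ G : ℝ) (hε : 0 < ε) (hκ : 0 < κ)
    (hG : 0 ≤ G) (hj : Tendsto j 𝒰 atTop) (hij : ∀ᶠ l in (𝒰 : Filter ℕ), i l < j l)
    (B : ℕ → ℤ)
    (hB : ∀ᶠ l in (𝒰 : Filter ℕ), |((c : ℝ) ^ (j l) - (c : ℝ) ^ (i l)) * theta b e m - B l| ≤
      G * Real.exp (-(ε * j l)))
    (hs1 : ∀ᶠ l in (𝒰 : Filter ℕ), κ * j l ≤ m (s l))
    (hs2 : ∀ᶠ l in (𝒰 : Filter ℕ), m (s l) * Real.log b ≤ Real.log c * j l) : False := by
  classical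
  have hpF : Fact p.Prime := ⟨hp⟩
  have hcR : (2 : ℝ) ≤ c := by exact_mod_cast hc
  have hγ : 0 < Real.log c := Real.log_pos (by linarith)
  have hlam := L.hlam
  have hb0 : b ≠ 0 := by have := L.hb; omega
  have hc0 : c ≠ 0 := by omega
  have hjr : Tendsto (fun l => (j l : ℝ)) 𝒰 atTop := tendsto_natCast_atTop_atTop.comp hj
  obtain ⟨K, T, ts, E, ρ₀, hρ0, hρε, hts, hs, hK, hKu, hKl, hE, hKT⟩ :=
    kl1 L (Real.log c) ε κ hγ hε hκ 𝒰 j s hj hs1 hs2
  obtain ⟨S, q, hq, hqall⟩ := places (b * c) (mul_ne_zero hb0 hc0)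
  have hqb : ∀ r : ℕ, r.Prime → r ∣ b → ∃ v, q v = r :=
    fun r hr h => hqall r hr (h.mul_right c)
  have hqc : ∀ r : ℕ, r.Prime → r ∣ c → ∃ v, q v = r :=
    fun r hr h => hqall r hr (h.mul_left b)
  obtain ⟨vp, hvp⟩ := hqb p hp hpb
  obtain ⟨z, hz1, hz2, hz3⟩ := kl2 hc L 𝒰 i j s K T ts E ρ₀ ε G hρ0 hρε hts hj hij hs hK hKu
    hKl hE hKT hs2 B hG hB q hq hqb hqc
  have hEts : E ts ≠ 0 := by
    obtain ⟨l, hl⟩ := (hE ts).exists
    rw [← hl]
    exact L.ne _
  -- the coefficients of the powers of `b`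
  obtain ⟨W, hW⟩ : ∃ W : ℕ → ℕ → ℚ, W = fun t l => if h : t < T + 1 then
    z (⟨t, h⟩, true) * (c : ℚ) ^ (j l - i l) + z (⟨t, h⟩, false) else 0 := ⟨_, rfl⟩
  have hts1 : ts < T + 1 := by omega
  have hWts : ∀ᶠ l in (𝒰 : Filter ℕ), W ts l ≠ 0 := by
    rcases 𝒰.em (fun l => W ts l = 0) with h | h
    · exfalso
      have h1 : ∀ᶠ l in (𝒰 : Filter ℕ), (E ts : ℚ) * (c : ℚ) ^ (j l - i l) =
          - z (⟨ts, hts1⟩, false) := by
        filter_upwards [h] with l hl
        rw [hW] at hl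
        simp only [dif_pos hts1] at hl
        rw [hz1 (⟨ts, hts1⟩, true) rfl rfl] at hl
        linarith
      obtain ⟨l₀, hl₀⟩ := h1.exists
      have hconst : ∀ᶠ l in (𝒰 : Filter ℕ), j l - i l = j l₀ - i l₀ := by
        filter_upwards [h1] with l hl
        have h2 : (E ts : ℚ) ≠ 0 := by exact_mod_cast hEts
        have h3 : (c : ℚ) ^ (j l - i l) = (c : ℚ) ^ (j l₀ - i l₀) :=
          mul_left_cancel₀ h2 (hl.trans hl₀.symm)
        have h4 : c ^ (j l - i l) = c ^ (j l₀ - i l₀) := by exact_mod_cast h3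
        exact Nat.pow_right_injective hc h4
      have h5 := hz2 ⟨_, hconst⟩ (⟨ts, hts1⟩, false) rfl
      obtain ⟨l, h6, h7⟩ := (h1.and hij).exists
      rw [h5] at h6
      unfold ac at h6
      simp only [Bool.false_eq_true, if_false, hts, if_true] at h6
      push_cast at h6
      have h2 : (E ts : ℚ) ≠ 0 := by exact_mod_cast hEts
      have h8 : (E ts : ℚ) * ((c : ℚ) ^ (j l - i l) - 1) = 0 := by linarith
      rcases mul_eq_zero.1 h8 with h9 | h9
      · exact h2 h9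
      · have h10 : (c : ℚ) ^ (j l - i l) = 1 := by linarith
        have h11 : c ^ (j l - i l) = 1 := by exact_mod_cast h10
        have h12 : 1 < c ^ (j l - i l) := Nat.one_lt_pow (by omega) (by omega)
        omega
    · exact h
  have hexT : ∃ t, ∀ᶠ l in (𝒰 : Filter ℕ), W t l ≠ 0 := ⟨ts, hWts⟩
  obtain ⟨t₀, ht₀⟩ : ∃ t₀, t₀ = Nat.find hexT := ⟨_, rfl⟩
  have ht₀spec : ∀ᶠ l in (𝒰 : Filter ℕ), W t₀ l ≠ 0 := by rw [ht₀]; exact Nat.find_spec hexT
  have ht₀le : t₀ ≤ ts := by rw [ht₀]; exact Nat.find_min' hexT hWts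
  have ht₀min : ∀ᶠ l in (𝒰 : Filter ℕ), ∀ t, t < t₀ → W t l = 0 := by
    refine (Filter.eventually_all_finite (Set.finite_Iio t₀)).2 (fun t ht => ?_)
    rcases 𝒰.em (fun l => W t l = 0) with h | h
    · exact h
    · exfalso
      rw [Set.mem_Iio, ht₀] at ht
      exact Nat.find_min hexT ht h
  -- p-adic sizes
  have hpadb : padicNorm p (b : ℚ) ≤ (p : ℚ)⁻¹ := by
    have h1 : ((p ^ 1 : ℕ) : ℤ) ∣ (b : ℤ) := by
      rw [pow_one]
      exact_mod_cast hpb
    have h2 := (padicNorm.dvd_iff_norm_le (p := p) (n := 1) (z := (b : ℤ))).1 h1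
    simpa using h2
  have hpinv : (p : ℚ)⁻¹ ≤ 1 / 2 := by
    rw [one_div]
    exact inv_anti₀ (by norm_num) (by exact_mod_cast hp.two_le)
  obtain ⟨r, hr⟩ : ∃ r : ℚ, r = padicNorm p (b : ℚ) := ⟨_, rfl⟩
  have hr0 : 0 < r := by
    rw [hr]
    have h1 : padicNorm p (b : ℚ) ≠ 0 := padicNorm.nonzero (by exact_mod_cast hb0)
    exact lt_of_le_of_ne (padicNorm.nonneg _) h1.symm
  have hr1 : r ≤ 1 / 2 := by
    rw [hr]
    exact hpadb.trans hpinv
  have hnc : padicNorm p (c : ℚ) = 1 := by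
    have := (padicNorm.nat_eq_one_iff (p := p) c).2 hpc
    exact this
  have hpow : ∀ (x : ℚ) (k : ℕ), padicNorm p (x ^ k) = padicNorm p x ^ k := by
    intro x k
    induction k with
    | zero => simp
    | succ k ih => rw [pow_succ, padicNorm.mul, ih, pow_succ]
  obtain ⟨Cw, hCw⟩ : ∃ Cw : ℚ, Cw = 1 + ∑ x, padicNorm p (z x) := ⟨_, rfl⟩
  have hzle : ∀ x, padicNorm p (z x) ≤ Cw := by
    intro x
    rw [hCw]
    have h1 : padicNorm p (z x) ≤ ∑ x, padicNorm p (z x) :=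
      Finset.single_le_sum (f := fun x => padicNorm p (z x))
        (fun y _ => padicNorm.nonneg _) (Finset.mem_univ x)
    linarith
  have hCw1 : 1 ≤ Cw := by
    rw [hCw]
    have : 0 ≤ ∑ x, padicNorm p (z x) := Finset.sum_nonneg fun y _ => padicNorm.nonneg _
    linarith
  have hWle : ∀ t l, padicNorm p (W t l) ≤ Cw := by
    intro t l
    rw [hW]
    simp only
    split_ifs with h
    · refine padicNorm.nonarchimedean.trans (max_le ?_ (hzle _))
      rw [padicNorm.mul, hpow, hnc, one_pow, mul_one]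
      exact hzle _
    · rw [padicNorm.zero]
      linarith
  obtain ⟨i₀, hi₀⟩ := eventually_atTop.1 L.lac
  -- the key inequality
  have hkey : ∀ᶠ l in (𝒰 : Filter ℕ), ((padicNorm p (W t₀ l) : ℚ) : ℝ) ≤
      (1 + Cw : ℚ) * Real.exp (-((Real.log 2 * ((1 - 1 / lam) * κ)) * j l)) := by
    filter_upwards [hz3, ht₀min, hs (i₀ + 1), hK, hs1, hij] with l h1 h2 h3 h4 h5 h6
    obtain ⟨M, hM⟩ : ∃ M : ℕ → ℕ, M = fun t => m (K l) - m (K l - t) := ⟨_, rfl⟩
    have hMt : ∀ t, M t = m (K l) - m (K l - t) := fun t => by rw [hM]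
    -- rewrite the relation
    have h7 : ∑ x, z x * (Xc b c e m (K l) T (i l) (j l) x : ℚ) =
        ∑ t ∈ Finset.range (T + 1), ((num b e m (K l) T t : ℤ) : ℚ) * (b : ℚ) ^ (M t) *
          (c : ℚ) ^ (i l) * W t l := by
      rw [Fintype.sum_prod_type, ← Fin.sum_univ_eq_sum_range (fun t : ℕ =>
        ((num b e m (K l) T t : ℤ) : ℚ) * (b : ℚ) ^ (M t) * (c : ℚ) ^ (i l) * W t l) (T + 1)]
      refine Finset.sum_congr rfl fun t _ => ?_
      have hc1 : (c : ℚ) ^ (j l) = (c : ℚ) ^ (i l) * (c : ℚ) ^ (j l - i l) := by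
        rw [← pow_add]
        congr 1
        omega
      rw [hW, hMt]
      simp only [Fintype.sum_bool, Xc, if_true, Bool.false_eq_true, if_false, t.2, dif_pos]
      push_cast
      rw [hc1]
      ring
    rw [h7] at h1
    have ht₀T : t₀ ∈ Finset.range (T + 1) := by
      rw [Finset.mem_range]
      omega
    rw [← Finset.add_sum_erase _ _ ht₀T] at h1
    have hnum : num b e m (K l) T t₀ = 1 := by
      unfold num
      rw [if_pos (by omega)]
    rw [hnum, Int.cast_one, one_mul] at h1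
    -- bound for the other terms
    obtain ⟨R, hR⟩ : ∃ R : ℚ, R = (1 + Cw) * r ^ (m (K l) - m (K l - t₀ - 1)) := ⟨_, rfl⟩
    have hR0 : 0 ≤ R := by
      rw [hR]
      positivity
    have h8 : padicNorm p (∑ t ∈ (Finset.range (T + 1)).erase t₀,
        ((num b e m (K l) T t : ℤ) : ℚ) * (b : ℚ) ^ (M t) * (c : ℚ) ^ (i l) * W t l) ≤ R := by
      refine padicNorm.sum_le' (fun t ht => ?_) hR0
      rw [Finset.mem_erase, Finset.mem_range] at ht
      rcases Nat.lt_or_ge t t₀ with h9 | h9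
      · rw [h2 t h9, mul_zero, padicNorm.zero]
        exact hR0
      · have h10 : t₀ < t := lt_of_le_of_ne h9 (fun h => ht.1 h.symm)
        rw [padicNorm.mul, padicNorm.mul, padicNorm.mul, hpow, hpow, hnc, one_pow, mul_one, ← hr]
        have h11 : padicNorm p ((num b e m (K l) T t : ℤ) : ℚ) ≤ 1 := padicNorm.of_int _
        have h12 : r ^ (M t) ≤ r ^ (m (K l) - m (K l - t₀ - 1)) := by
          apply pow_le_pow_of_le_one hr0.le (by linarith)
          rw [hMt]
          have : m (K l - t) ≤ m (K l - t₀ - 1) := L.mono.monotone (by omega)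
          omega
        have h13 := hWle t l
        have h14 : 0 ≤ padicNorm p (W t l) := padicNorm.nonneg _
        have h15 : 0 ≤ padicNorm p ((num b e m (K l) T t : ℤ) : ℚ) := padicNorm.nonneg _
        have h16 : 0 ≤ r ^ (M t) := by positivity
        calc padicNorm p ((num b e m (K l) T t : ℤ) : ℚ) * r ^ (M t) * padicNorm p (W t l)
            ≤ 1 * r ^ (m (K l) - m (K l - t₀ - 1)) * Cw := by gcongr
          _ ≤ R := by
            rw [hR]
            have : 0 ≤ r ^ (m (K l) - m (K l - t₀ - 1)) := by positivity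
            nlinarith
    have h9 : padicNorm p (((B l * (b : ℤ) ^ (m (K l)) : ℤ) : ℚ)) ≤ R := by
      push_cast
      rw [padicNorm.mul, hpow, ← hr]
      have h10 : padicNorm p ((B l : ℤ) : ℚ) ≤ 1 := padicNorm.of_int _
      have h11 : r ^ (m (K l)) ≤ r ^ (m (K l) - m (K l - t₀ - 1)) :=
        pow_le_pow_of_le_one hr0.le (by linarith) (by omega)
      have h12 : 0 ≤ r ^ (m (K l)) := by positivity
      calc padicNorm p ((B l : ℤ) : ℚ) * r ^ (m (K l)) ≤ 1 * r ^ (m (K l)) := by gcongr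
        _ ≤ R := by
          rw [hR]
          have : 0 ≤ r ^ (m (K l) - m (K l - t₀ - 1)) := by positivity
          nlinarith
    have h10 : padicNorm p ((b : ℚ) ^ (M t₀) * (c : ℚ) ^ (i l) * W t₀ l) ≤ R := by
      have h11 : (b : ℚ) ^ (M t₀) * (c : ℚ) ^ (i l) * W t₀ l =
          ((B l * (b : ℤ) ^ (m (K l)) : ℤ) : ℚ) - ∑ t ∈ (Finset.range (T + 1)).erase t₀,
            ((num b e m (K l) T t : ℤ) : ℚ) * (b : ℚ) ^ (M t) * (c : ℚ) ^ (i l) * W t l := by
        rw [h1]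
        ring
      rw [h11]
      exact padicNorm.sub.trans (max_le h9 h8)
    rw [padicNorm.mul, padicNorm.mul, hpow, hpow, hnc, one_pow, mul_one, ← hr] at h10
    -- divide
    have hm1 : m (K l - t₀ - 1) < m (K l - t₀) := L.mono (by omega)
    have hm2 : m (K l - t₀) ≤ m (K l) := L.mono.monotone (by omega)
    have h11 : padicNorm p (W t₀ l) ≤ (1 + Cw) * r ^ (m (K l - t₀) - m (K l - t₀ - 1)) := by
      have h12 : r ^ (m (K l) - m (K l - t₀ - 1)) =
          r ^ (M t₀) * r ^ (m (K l - t₀) - m (K l - t₀ - 1)) := by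
        rw [← pow_add, hMt]
        congr 1
        omega
      rw [hR, h12] at h10
      have h13 : 0 < r ^ (M t₀) := by positivity
      have h14 : r ^ (M t₀) * padicNorm p (W t₀ l) ≤
          r ^ (M t₀) * ((1 + Cw) * r ^ (m (K l - t₀) - m (K l - t₀ - 1))) := by
        linarith
      exact le_of_mul_le_mul_left h14 h13
    -- size of the gap
    have h12 := hi₀ (K l - t₀ - 1) (by omega)
    rw [show K l - t₀ - 1 + 1 = K l - t₀ by omega] at h12
    have h13 : m (s l) ≤ m (K l - t₀) := L.mono.monotone (by omega)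
    have h13' : (m (s l) : ℝ) ≤ m (K l - t₀) := by exact_mod_cast h13
    have hgap : (1 - 1 / lam) * κ * j l ≤
        ((m (K l - t₀) - m (K l - t₀ - 1) : ℕ) : ℝ) := by
      rw [Nat.cast_sub hm1.le]
      have h14 : (m (K l - t₀ - 1) : ℝ) ≤ 1 / lam * m (K l - t₀) := by
        rw [one_div, inv_mul_eq_div, le_div_iff₀ (by linarith)]
        linarith
      have h15 : 0 ≤ 1 - 1 / lam := by
        rw [sub_nonneg, div_le_one (by linarith)]
        exact hlam.le
      have h16 : (1 - 1 / lam) * (κ * j l) ≤ (1 - 1 / lam) * m (K l - t₀) :=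
        mul_le_mul_of_nonneg_left (h5.trans h13') h15
      linarith
    have h14 : ((r ^ (m (K l - t₀) - m (K l - t₀ - 1)) : ℚ) : ℝ) ≤
        Real.exp (-((Real.log 2 * ((1 - 1 / lam) * κ)) * j l)) := by
      push_cast
      have hrR : (r : ℝ) ≤ 1 / 2 := by
        have h2 : ((r : ℚ) : ℝ) ≤ ((1 / 2 : ℚ) : ℝ) := Rat.cast_le.2 hr1
        push_cast at h2
        exact h2
      have hrR0 : (0 : ℝ) ≤ r := by exact_mod_cast hr0.le
      calc (r : ℝ) ^ (m (K l - t₀) - m (K l - t₀ - 1))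
          ≤ (1 / 2 : ℝ) ^ (m (K l - t₀) - m (K l - t₀ - 1)) := by gcongr
        _ = Real.exp (-(Real.log 2 * ((m (K l - t₀) - m (K l - t₀ - 1) : ℕ) : ℝ))) := by
            rw [← neg_mul, Real.exp_mul, Real.exp_neg, Real.exp_log (by norm_num),
              Real.rpow_natCast, one_div]
        _ ≤ _ := by
            apply Real.exp_le_exp.2
            have h2 : 0 ≤ Real.log 2 := Real.log_nonneg (by norm_num)
            have h17 := mul_le_mul_of_nonneg_left hgap h2
            linarith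
    have h15 : ((padicNorm p (W t₀ l) : ℚ) : ℝ) ≤
        (((1 + Cw) * r ^ (m (K l - t₀) - m (K l - t₀ - 1)) : ℚ) : ℝ) := by exact_mod_cast h11
    refine h15.trans ?_
    rw [Rat.cast_mul]
    refine mul_le_mul_of_nonneg_left h14 ?_
    have : (0 : ℚ) ≤ 1 + Cw := by linarith
    exact_mod_cast this
  -- the end
  have ht₀T : t₀ < T + 1 := by omega
  have hκ' : 0 < Real.log 2 * ((1 - 1 / lam) * κ) := by
    have h1 : 0 < Real.log 2 := Real.log_pos (by norm_num)
    have h2 : 0 < 1 - 1 / lam := by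
      rw [sub_pos, div_lt_one (by linarith)]
      exact hlam
    positivity
  refine lp q hq vp c hc hqc (by rw [hvp]; exact hpc) 𝒰 j hj (fun l => j l - i l)
    (by filter_upwards with l; omega) (z (⟨t₀, ht₀T⟩, true)) (z (⟨t₀, ht₀T⟩, false)) ?_
    ((1 + Cw : ℚ) : ℝ) (Real.log 2 * ((1 - 1 / lam) * κ)) hκ' ?_
  · filter_upwards [ht₀spec] with l hl
    rw [hW] at hl
    simp only [dif_pos ht₀T] at hl
    exact hl
  · filter_upwards [hkey] with l hl
    rw [hW] at hl
    simp only [dif_pos ht₀T] at hl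
    rw [hvp]
    exact hl

end MPacdTB
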