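import Pool.Agent.Lib.SubQ.Up

/-!
# MP_acd137_lc / TB / SL: two convenient forms of the Subspace theorem (helper90)
-/

set_option autoImplicit false

namespace MPacdTB

open Filter Topology Pool.Agent.SubQ

/-- no fixed relation along the ultrafilter -/
def GenI {ι : Type} [Fintype ι] (𝒰 : Ultrafilter ℕ) (x : ℕ → ι → ℤ) : Prop :=
  ∀ z : ι → ℤ, z ≠ 0 → ∀ᶠ l in (𝒰 : Filter ℕ), ∑ i, z i * x l i ≠ 0

/-- The Subspace theorem with coordinates at all places, except one form at one place. -/
theorem sl {ι : Type} [Fintype ι] [DecidableEq ι] {s : ℕ} (q : Fin s → ℕ) (hq : Pls q)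
    (𝒰 : Ultrafilter ℕ) (T : ℕ → ℕ) (hT : Tendsto T 𝒰 atTop) (x : ℕ → ι → ℤ)
    (hgen : GenI 𝒰 x) (B : ℝ)
    (hB : ∀ i, ∀ᶠ l in (𝒰 : Filter ℕ), |(x l i : ℝ)| ≤ Real.exp (B * T l))
    (u : Option (Fin s) → ι → ℝ) (v₀ : Option (Fin s)) (k₀ : ι) (w : ι → ℤ) (hw : w k₀ ≠ 0)
    (τ : ℝ)
    (hu : ∀ v i, ¬ (v = v₀ ∧ i = k₀) → ∀ ε : ℝ, 0 < ε →
      ∀ᶠ l in (𝒰 : Filter ℕ), lv q v (x l i) ≤ (u v i + ε) * T l)
    (hτ : ∀ ε : ℝ, 0 < ε → ∀ᶠ l in (𝒰 : Filter ℕ), lv q v₀ (∑ i, w i * x l i) ≤ (τ + ε) * T l) :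
    0 ≤ ∑ v, ∑ i, (if v = v₀ ∧ i = k₀ then τ else u v i) := by
  classical
  obtain ⟨e⟩ : Nonempty (ι ≃ Fin (Fintype.card ι)) := ⟨Fintype.equivFin ι⟩
  have key := subUp (Fintype.card ι) s q hq 𝒰 T (fun l i => x l (e.symm i))
    (fun v => if v = v₀ then (1 : Matrix _ _ ℤ).updateRow (e k₀) (fun i => w (e.symm i)) else 1)
    (fun v i => if v = v₀ ∧ e.symm i = k₀ then τ else u v (e.symm i)) B hT ?_ ?_ ?_ ?_
  · refine key.trans (le_of_eq ?_)
    refine Finset.sum_congr rfl fun v _ => ?_
    exact Equiv.sum_comp e.symm (fun i => if v = v₀ ∧ i = k₀ then τ else u v i)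
  · intro z hz
    have h1 : (fun i => z (e i)) ≠ 0 := by
      intro h
      apply hz
      funext i
      have := congrFun h (e.symm i)
      simpa using this
    filter_upwards [hgen _ h1] with l hl
    intro h
    apply hl
    rw [← h]
    rw [← Equiv.sum_comp e.symm]
    refine Finset.sum_congr rfl fun i _ => ?_
    simp
  · intro v
    by_cases hv : v = v₀
    · rw [if_pos hv]
      rw [← Matrix.cramer_transpose_apply, Matrix.transpose_one, Matrix.cramer_one]
      simpa using hw
    · rw [if_neg hv]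
      simp
  · intro i
    exact hB _
  · intro v i ε hε
    by_cases hv : v = v₀
    · by_cases hi : e.symm i = k₀
      · have h1 : i = e k₀ := by rw [← hi]; simp
        filter_upwards [hτ ε hε] with l hl
        simp only [hv, if_true, h1, Matrix.updateRow_self, Equiv.symm_apply_apply, and_self]
        rw [Equiv.sum_comp e.symm (fun i => w i * x l i)]
        exact hl
      · have h1 : i ≠ e k₀ := by
          rintro rfl
          apply hi
          simp
        filter_upwards [hu v _ (fun h => hi h.2) ε hε] with l hl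
        rw [if_pos hv, if_neg (fun h => hi h.2), Matrix.updateRow_ne h1]
        simpa [Matrix.one_apply, Finset.sum_ite_eq] using hl
    · filter_upwards [hu v (e.symm i) (fun h => hv h.1) ε hε] with l hl
      rw [if_neg hv, if_neg (fun h => hv h.1)]
      simpa [Matrix.one_apply, Finset.sum_ite_eq] using hl

theorem clear {κ : Type} [Fintype κ] (c : κ → ℚ) :
    ∃ (D : ℕ) (w : κ → ℤ), 0 < D ∧ ∀ k, (w k : ℚ) = D * c k := by
  classical
  refine ⟨∏ k, (c k).den, fun k => (∏ j ∈ Finset.univ.erase k, (c j).den : ℕ) * (c k).num,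
    Finset.prod_pos fun k _ => (c k).den_pos, fun k => ?_⟩
  rw [← Finset.mul_prod_erase Finset.univ (fun k => (c k).den) (Finset.mem_univ k)]
  push_cast
  have h : (c k) * (c k).den = (c k).num := Rat.mul_den_eq_num (c k)
  rw [← h]
  ring

/-- evaluation of a form -/
noncomputable def ev {ι : Type} [Fintype ι] (z : ι → ℤ) : (ι → ℚ) →ₗ[ℚ] ℚ :=
  ∑ i, (z i : ℚ) • LinearMap.proj i

theorem ev_apply {ι : Type} [Fintype ι] (z : ι → ℤ) (c : ι → ℚ) :
    ev z c = ∑ i, (z i : ℚ) * c i := by
  simp [ev, LinearMap.sum_apply]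

theorem ev_single {ι : Type} [Fintype ι] [DecidableEq ι] (z : ι → ℤ) (i : ι) :
    ev z (Pi.single i 1) = z i := by
  rw [ev_apply]
  simp [Pi.single_apply]

/-- the relations along the ultrafilter -/
noncomputable def Rl {ι : Type} [Fintype ι] (𝒰 : Ultrafilter ℕ) (Z : ℕ → ι → ℤ) :
    Submodule ℚ (ι → ℚ) where
  carrier := {c | ∀ᶠ l in (𝒰 : Filter ℕ), ev (Z l) c = 0}
  zero_mem' := by simp
  add_mem' := by
    rintro a b ha hb
    filter_upwards [ha, hb] with l h1 h2
    rw [map_add, h1, h2, add_zero]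
  smul_mem' := by
    rintro t a ha
    filter_upwards [ha] with l h1
    rw [map_smul, h1, smul_zero]

/-- the class of a form -/
noncomputable def mq {ι : Type} [Fintype ι] (𝒰 : Ultrafilter ℕ) (Z : ℕ → ι → ℤ) :
    (ι → ℚ) →ₗ[ℚ] ((ι → ℚ) ⧸ Rl 𝒰 Z) := Submodule.mkQ (Rl 𝒰 Z)

theorem mq_eq {ι : Type} [Fintype ι] (𝒰 : Ultrafilter ℕ) (Z : ℕ → ι → ℤ) (c : ι → ℚ) :
    mq 𝒰 Z c = 0 ↔ ∀ᶠ l in (𝒰 : Filter ℕ), ev (Z l) c = 0 := by
  unfold mq
  rw [Submodule.mkQ_apply, Submodule.Quotient.mk_eq_zero]
  rfl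

theorem sum_ite_pair {ι σ : Type} [Fintype ι] [Fintype σ] [DecidableEq ι] [DecidableEq σ]
    (u : σ → ι → ℝ) (v₀ : σ) (k₀ : ι) (τ : ℝ) :
    ∑ v, ∑ i, (if v = v₀ ∧ i = k₀ then τ else u v i) =
      ∑ i, ∑ v, u v i - u v₀ k₀ + τ := by
  have h : ∀ v i, (if v = v₀ ∧ i = k₀ then τ else u v i) =
      u v i + (if v = v₀ then (if i = k₀ then τ - u v₀ k₀ else 0) else 0) := by
    intro v i
    by_cases hv : v = v₀
    · by_cases hi : i = k₀
      · simp [hv, hi]
      · simp [hv, hi]
    · simp [hv]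
  simp only [h, Finset.sum_add_distrib]
  rw [Finset.sum_comm]
  simp only [Finset.sum_ite_eq', Finset.mem_univ, if_true, Finset.sum_ite_irrel,
    Finset.sum_const_zero]
  ring

theorem log_small {s : ℕ} (q : Fin s → ℕ) (𝒰 : Ultrafilter ℕ) (T : ℕ → ℕ)
    (hT : Tendsto T 𝒰 atTop) (W F : ℕ → ℤ) (D : ℕ) (hD : 0 < D) (τ : ℝ)
    (hW : ∀ᶠ l in (𝒰 : Filter ℕ), W l = D * F l) (hne : ∀ᶠ l in (𝒰 : Filter ℕ), W l ≠ 0)
    (hL : ∀ ε : ℝ, 0 < ε → ∀ᶠ l in (𝒰 : Filter ℕ), |(F l : ℝ)| ≤ Real.exp ((τ + ε) * T l)) :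
    ∀ ε : ℝ, 0 < ε → ∀ᶠ l in (𝒰 : Filter ℕ), lv q none (W l) ≤ (τ + ε) * T l := by
  intro ε hε
  have hTr : Tendsto (fun l => (T l : ℝ)) 𝒰 atTop := tendsto_natCast_atTop_atTop.comp hT
  filter_upwards [hW, hne, hL (ε / 2) (by linarith),
    hTr.eventually_ge_atTop (2 * Real.log D / ε)] with l h1 h2 h3 h4
  have hF : F l ≠ 0 := by
    intro h
    rw [h, mul_zero] at h1
    exact h2 h1
  have hF' : (F l : ℝ) ≠ 0 := by exact_mod_cast hF
  have hD' : (D : ℝ) ≠ 0 := by
    have : D ≠ 0 := by omega
    exact_mod_cast this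
  unfold lv
  rw [h1]
  push_cast
  rw [abs_mul, Real.log_mul (abs_ne_zero.2 hD') (abs_ne_zero.2 hF'), Nat.abs_cast]
  have h5 : Real.log |(F l : ℝ)| ≤ (τ + ε / 2) * T l := by
    rw [Real.log_le_iff_le_exp (abs_pos.2 hF')]
    exact h3
  have h6 : Real.log D ≤ ε / 2 * T l := by
    rw [div_le_iff₀ hε] at h4
    linarith
  linarith

/-- **Relations from small forms.**  `L = ∑ a i X i - Y` is small; then `Y` is a fixed rational
combination of the `X i`, with the coefficient `a i` at every `X i` which is large compared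
with `L`. -/
theorem al {ι : Type} [Fintype ι] [DecidableEq ι] {s : ℕ} (q : Fin s → ℕ) (hq : Pls q)
    (𝒰 : Ultrafilter ℕ) (T : ℕ → ℕ) (hT : Tendsto T 𝒰 atTop) (B : ℝ)
    (X : ℕ → ι → ℤ) (hXB : ∀ i, ∀ᶠ l in (𝒰 : Filter ℕ), |(X l i : ℝ)| ≤ Real.exp (B * T l))
    (u : Option (Fin s) → ι → ℝ)
    (hu : ∀ v i, ∀ ε : ℝ, 0 < ε → ∀ᶠ l in (𝒰 : Filter ℕ), lv q v (X l i) ≤ (u v i + ε) * T l)
    (ρ : ι → ℝ) (hρ0 : ∀ i, 0 ≤ ρ i) (hρ : ∀ i, ∑ v, u v i ≤ ρ i)
    (Y : ℕ → ℤ) (hYB : ∀ᶠ l in (𝒰 : Filter ℕ), |(Y l : ℝ)| ≤ Real.exp (B * T l))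
    (y : Fin s → ℝ) (hy : ∀ v, ∀ ε : ℝ, 0 < ε →
      ∀ᶠ l in (𝒰 : Filter ℕ), Y l ≠ 0 → lv q (some v) (Y l) ≤ (y v + ε) * T l)
    (a : ι → ℤ) (τ : ℝ) (hL : ∀ ε : ℝ, 0 < ε → ∀ᶠ l in (𝒰 : Filter ℕ),
      |((∑ i, a i * X l i - Y l : ℤ) : ℝ)| ≤ Real.exp ((τ + ε) * T l))
    (h1 : ∑ i, ρ i + τ + ∑ v, y v < 0) :
    ∃ z : ι → ℚ, (∀ i, ∑ i, ρ i + τ < u none i → z i = a i) ∧
      ∀ᶠ l in (𝒰 : Filter ℕ), (Y l : ℚ) = ∑ i, z i * X l i := by
  classical
  obtain ⟨Z, hZ⟩ : ∃ Z : ℕ → Option ι → ℤ, Z = fun l i => i.elim (Y l) (X l) := ⟨_, rfl⟩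
  have hZ0 : ∀ l, Z l none = Y l := fun l => by rw [hZ]; rfl
  have hZ1 : ∀ l i, Z l (some i) = X l i := fun l i => by rw [hZ]; rfl
  obtain ⟨c, hc⟩ : ∃ c : Option ι → ((Option ι → ℚ) ⧸ Rl 𝒰 Z),
    c = fun i => mq 𝒰 Z (Pi.single i 1) := ⟨_, rfl⟩
  obtain ⟨κ, f, hf, hspan, hli⟩ := exists_linearIndependent' ℚ (fun i : ι => c (some i))
  haveI : Finite κ := Finite.of_injective f hf
  haveI : Fintype κ := Fintype.ofFinite κ
  have hM : ∀ i : ι, ∃ b : κ → ℚ, ∑ k, b k • c (some (f k)) = c (some i) := by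
    intro i
    have h2 : c (some i) ∈ Submodule.span ℚ (Set.range ((fun i : ι => c (some i)) ∘ f)) := by
      rw [hspan]
      exact Submodule.subset_span ⟨i, rfl⟩
    exact (Submodule.mem_span_range_iff_exists_fun ℚ).1 h2
  choose M hM using hM
  have hρs : ∑ k, ρ (f k) ≤ ∑ i, ρ i := by
    rw [← Finset.sum_image (f := ρ) (s := Finset.univ) (g := f) (fun _ _ _ _ h => hf h)]
    exact Finset.sum_le_sum_of_subset_of_nonneg (Finset.subset_univ _) fun i _ _ => hρ0 i
  have hρs' : ∑ k, ∑ v, u v (f k) ≤ ∑ i, ρ i :=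
    (Finset.sum_le_sum fun k _ => hρ (f k)).trans hρs
  -- the form in the basis
  obtain ⟨m, hm⟩ : ∃ m : κ → ℚ, m = fun k => ∑ i, (a i : ℚ) * M i k := ⟨_, rfl⟩
  have hform : ∑ i, (a i : ℚ) • c (some i) = ∑ k, m k • c (some (f k)) := by
    rw [hm]
    simp only [Finset.sum_smul, mul_smul]
    rw [Finset.sum_comm]
    refine Finset.sum_congr rfl fun i _ => ?_
    rw [← Finset.smul_sum, hM i]
  have hform' : ∀ᶠ l in (𝒰 : Filter ℕ),
      ∑ i, (a i : ℚ) * X l i = ∑ k, m k * X l (f k) := by
    have h3 : mq 𝒰 Z (∑ i, (a i : ℚ) • Pi.single (some i) 1 -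
        ∑ k, m k • Pi.single (some (f k)) 1) = 0 := by
      rw [map_sub, map_sum, map_sum]
      simp only [map_smul]
      have := hform
      rw [hc] at this
      simp only at this
      rw [this, sub_self]
    filter_upwards [(mq_eq 𝒰 Z _).1 h3] with l hl
    rw [map_sub, map_sum, map_sum, sub_eq_zero] at hl
    simpa only [map_smul, ev_single, hZ1, smul_eq_mul] using hl
  -- genericity of the basis
  have hgen : GenI 𝒰 (fun l k => X l (f k)) := by
    intro z hz
    rcases 𝒰.em (fun l => ∑ k, z k * X l (f k) = 0) with h | h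
    · exfalso
      apply hz
      have h3 : mq 𝒰 Z (∑ k, (z k : ℚ) • Pi.single (some (f k)) 1) = 0 := by
        rw [mq_eq]
        filter_upwards [h] with l hl
        rw [map_sum]
        simp only [map_smul, ev_single, hZ1, smul_eq_mul]
        exact_mod_cast hl
      rw [map_sum] at h3
      simp only [map_smul] at h3
      have h4 : ∑ k, (z k : ℚ) • ((fun i : ι => c (some i)) ∘ f) k = 0 := by
        rw [hc]
        exact h3
      have h5 := Fintype.linearIndependent_iff.1 hli _ h4
      funext k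
      have := h5 k
      exact_mod_cast this
    · exact h
  by_cases h0 : c none ∈ Submodule.span ℚ (Set.range ((fun i : ι => c (some i)) ∘ f))
  · -- `Y` is a combination of the basis
    obtain ⟨b, hb⟩ := (Submodule.mem_span_range_iff_exists_fun ℚ).1 h0
    have hb' : ∀ᶠ l in (𝒰 : Filter ℕ), (Y l : ℚ) = ∑ k, b k * X l (f k) := by
      have h3 : mq 𝒰 Z (Pi.single none 1 - ∑ k, b k • Pi.single (some (f k)) 1) = 0 := by
        rw [map_sub, map_sum]
        simp only [map_smul]
        have := hb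
        rw [hc] at this
        simp only [Function.comp] at this
        rw [this, sub_self]
      filter_upwards [(mq_eq 𝒰 Z _).1 h3] with l hl
      rw [map_sub, map_sum, sub_eq_zero] at hl
      simpa only [map_smul, ev_single, hZ1, hZ0, smul_eq_mul] using hl
    have hzero : ∀ k, ∑ i, ρ i + τ < u none (f k) → m k - b k = 0 := by
      intro k₀ hk
      by_contra hne
      obtain ⟨D, w, hD, hw⟩ := clear (fun k => m k - b k)
      have hw0 : w k₀ ≠ 0 := by
        intro h
        have := hw k₀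
        rw [h, Int.cast_zero] at this
        have hD' : (D : ℚ) ≠ 0 := by
          have : D ≠ 0 := by omega
          exact_mod_cast this
        rcases mul_eq_zero.1 this.symm with h2 | h2
        · exact hD' h2
        · exact hne h2
      have hWeq : ∀ᶠ l in (𝒰 : Filter ℕ), ∑ k, w k * X l (f k) =
          D * (∑ i, a i * X l i - Y l) := by
        filter_upwards [hb', hform'] with l h3 h4
        have h5 : (∑ k, (w k : ℚ) * X l (f k)) = D * (∑ i, (a i : ℚ) * X l i - Y l) := by
          rw [h3, h4, ← Finset.sum_sub_distrib, Finset.mul_sum]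
          refine Finset.sum_congr rfl fun k _ => ?_
          rw [hw k]
          ring
        exact_mod_cast h5
      have key := sl q hq 𝒰 T hT (fun l k => X l (f k)) hgen B (fun k => hXB (f k))
        (fun v k => u v (f k)) none k₀ w hw0 τ (fun v k _ ε hε => hu v (f k) ε hε)
        (log_small q 𝒰 T hT _ _ D hD τ hWeq
          (hgen w (fun h => hw0 (congrFun h k₀))) hL)
      rw [sum_ite_pair (fun v k => u v (f k))] at key
      linarith
    refine ⟨fun i => a i - ∑ k, (if f k = i then (m k - b k) else 0), ?_, ?_⟩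
    · intro i hi
      have : ∑ k, (if f k = i then (m k - b k) else 0) = 0 := by
        refine Finset.sum_eq_zero fun k _ => ?_
        split_ifs with h
        · exact hzero k (by rw [h]; exact hi)
        · rfl
      simp only [this, sub_zero]
    · filter_upwards [hb', hform'] with l h3 h4
      have h5 : ∑ i, (∑ k, (if f k = i then (m k - b k) else 0)) * (X l i : ℚ) =
          ∑ k, (m k - b k) * X l (f k) := by
        simp only [Finset.sum_mul]
        rw [Finset.sum_comm]
        refine Finset.sum_congr rfl fun k _ => ?_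
        rw [Finset.sum_eq_single (f k)]
        · rw [if_pos rfl]
        · intro i _ hi
          rw [if_neg (fun h => hi h.symm), zero_mul]
        · intro h
          exact absurd (Finset.mem_univ _) h
      simp only [sub_mul, Finset.sum_sub_distrib] at h5 ⊢
      rw [h5, h4, h3]
      ring
  · -- `Y` is independent of the basis
    exfalso
    obtain ⟨D, w, hD, hw⟩ := clear m
    have hgen' : GenI 𝒰 (fun l (k : Option κ) => k.elim (Y l) (fun k => X l (f k))) := by
      intro z hz
      rcases 𝒰.em (fun l => ∑ k : Option κ, z k * k.elim (Y l) (fun k => X l (f k)) = 0)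
        with h | h
      · exfalso
        have h3 : mq 𝒰 Z ((z none : ℚ) • Pi.single none 1 +
            ∑ k, (z (some k) : ℚ) • Pi.single (some (f k)) 1) = 0 := by
          rw [mq_eq]
          filter_upwards [h] with l hl
          rw [map_add, map_sum]
          simp only [map_smul, ev_single, hZ1, hZ0, smul_eq_mul]
          rw [Fintype.sum_option] at hl
          simp only [Option.elim] at hl
          exact_mod_cast hl
        rw [map_add, map_sum] at h3
        simp only [map_smul] at h3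
        by_cases hz0 : z none = 0
        · rw [hz0, Int.cast_zero, zero_smul, zero_add] at h3
          have h4 : ∑ k, (z (some k) : ℚ) • ((fun i : ι => c (some i)) ∘ f) k = 0 := by
            rw [hc]
            exact h3
          have h5 := Fintype.linearIndependent_iff.1 hli _ h4
          apply hz
          funext k
          cases k with
          | none => exact hz0
          | some k =>
            have := h5 k
            exact_mod_cast this
        · apply h0
          have hz0' : (z none : ℚ) ≠ 0 := by exact_mod_cast hz0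
          have h4 : c none = ∑ k, (-(z (some k) : ℚ) / z none) •
              ((fun i : ι => c (some i)) ∘ f) k := by
            have h5 : (z none : ℚ) • c none = -∑ k, (z (some k) : ℚ) • c (some (f k)) := by
              rw [hc]
              exact eq_neg_of_add_eq_zero_left h3
            have h6 : c none = (z none : ℚ)⁻¹ • ((z none : ℚ) • c none) := by
              rw [smul_smul, inv_mul_cancel₀ hz0', one_smul]
            rw [h6, h5, smul_neg, Finset.smul_sum, ← Finset.sum_neg_distrib]
            refine Finset.sum_congr rfl fun k _ => ?_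
            simp only [Function.comp]
            rw [smul_smul, ← neg_smul]
            congr 1
            field_simp
          rw [h4]
          exact (Submodule.mem_span_range_iff_exists_fun ℚ).2 ⟨_, rfl⟩
      · exact h
    have hD0 : (-(D : ℤ)) ≠ 0 := by
      have : (0 : ℤ) < D := by exact_mod_cast hD
      omega
    have hWeq : ∀ᶠ l in (𝒰 : Filter ℕ), (∑ k : Option κ, (k.elim (-(D : ℤ)) w) *
        k.elim (Y l) (fun k => X l (f k))) = D * (∑ i, a i * X l i - Y l) := by
      filter_upwards [hform'] with l h4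
      rw [Fintype.sum_option]
      simp only [Option.elim]
      have h5 : (-(D : ℚ)) * Y l + (∑ k, (w k : ℚ) * X l (f k)) =
          D * (∑ i, (a i : ℚ) * X l i - Y l) := by
        rw [h4, mul_sub, Finset.mul_sum]
        have : ∀ k, (w k : ℚ) * X l (f k) = D * (m k * X l (f k)) := by
          intro k
          rw [hw k]
          ring
        simp only [this]
        ring
      exact_mod_cast h5
    have key := sl q hq 𝒰 T hT (fun l (k : Option κ) => k.elim (Y l) (fun k => X l (f k)))
      hgen' B (fun k => by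
        cases k with
        | none => exact hYB
        | some k => exact hXB (f k))
      (fun v (k : Option κ) => k.elim (v.elim 0 y) (fun k => u v (f k))) none none
      (fun k => k.elim (-(D : ℤ)) w) hD0 τ
      (by
        intro v k hvk ε hε
        cases k with
        | none =>
          cases v with
          | none => exact absurd ⟨rfl, rfl⟩ hvk
          | some v =>
            have h6 := hgen' (Pi.single none 1) (by
              intro h
              have := congrFun h none
              simp at this)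
            filter_upwards [hy v ε hε, h6] with l hl h7
            refine hl ?_
            rw [Fintype.sum_option] at h7
            simpa using h7
        | some k => exact hu v (f k) ε hε)
      (log_small q 𝒰 T hT _ _ D hD τ hWeq
        (hgen' _ (fun h => hD0 (congrFun h none))) hL)
    rw [sum_ite_pair] at key
    rw [Fintype.sum_option] at key
    simp only [Option.elim] at key
    rw [Fintype.sum_option] at key
    simp only [Option.elim] at key
    linarith

end MPacdTB
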